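import Pool.Agent.U189.FV.Cvx
import Pool.Agent.U189.MG.Frm

/-!
# Nef pullbacks of toric divisors are the convex ones, and they are base point free
-/

set_option autoImplicit false
set_option linter.overlappingInstances false
set_option linter.unusedSectionVars false
set_option maxHeartbeats 1000000

open FF MvPolynomial Pool.Agent.W603.LV Pool.Agent.W602.GT Pool.Agent.W602.Cov

namespace Pool.Agent.U189.FV

open Pool.Agent.U189.ND (affine minimalOrder InCone)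
open Pool.Agent.Results.MP_89a3f8_ag.TerminationOfFlips (IsSection BasePointFree)
open Pool.Agent.U189.MG.G (IsFreeAlong IsFreeAlongUpTo free_cones upto_of_cone)
open Pool.Agent.U660.MD

/-- The cone which is generated by `σ` is of full dimension: its generators have a common coordinate
`0`, and together with the vector `(1, ..., 1)` they span all vectors. -/
def IsFull {n : ℕ} (σ : Finset (Fin (n + 1) → ℕ)) : Prop :=
  (∃ k0, ∀ s ∈ σ, s k0 = 0) ∧ ∀ v : Fin (n + 1) → ℕ,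
    ∃ (ρ : (Fin (n + 1) → ℕ) → ℚ) (t : ℚ), ∀ k, (v k : ℚ) = t + ∑ s ∈ σ, ρ s * s k

/-- The real combination `w` of the divisors with the degrees `β i` and the coefficients `c i` is convex:
if the monomials with the rational exponents `m i` and of the degrees `β i` are local equations of the
divisors on the cone of `σ`, then the combination of the functions `c i v + ∑ k, m i k * v k` is nonnegative
everywhere. -/
def IsConvex {n p : ℕ} (fan : Finset (Finset (Fin (n + 1) → ℕ)))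
    (c : Fin p → (Fin (n + 1) → ℕ) → ℚ) (β : Fin p → ℤ) (w : Fin p → ℝ) : Prop :=
  ∀ σ ∈ fan, ∀ m : Fin p → Fin (n + 1) → ℚ, (∀ i, ∑ k, m i k = β i) →
    (∀ i, ∀ s ∈ σ, ∑ k, m i k * s k = - c i s) →
    ∀ v : Fin (n + 1) → ℕ, (∃ k, v k = 0) → 0 ≤ ∑ i, w i * ((c i v + ∑ k, m i k * v k : ℚ) : ℝ)

/-- The integral combination `μ` is (the pullback of) a toric Cartier divisor: on every cone it has a
monomial with integral exponents and of the degree of `μ` as a local equation. -/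
def IsCartier {n p : ℕ} (fan : Finset (Finset (Fin (n + 1) → ℕ)))
    (c : Fin p → (Fin (n + 1) → ℕ) → ℚ) (β : Fin p → ℤ) (μ : Fin p → ℤ) : Prop :=
  ∀ σ ∈ fan, ∃ m : Fin (n + 1) → ℤ, ∑ k, m k = ∑ i, μ i * β i ∧
    ∀ s ∈ σ, ∑ k, (m k : ℚ) * s k = - ∑ i, (μ i : ℚ) * c i s

section comb

variable {n p : ℕ} {fan : Finset (Finset (Fin (n + 1) → ℕ))}
  {c : Fin p → (Fin (n + 1) → ℕ) → ℚ} {u : Finset (Fin (n + 1) → ℕ) → Fin p → Fin (n + 1) → ℚ}
  {β : Fin p → ℤ}

/-- the local equations exist -/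
theorem exists_loc (hf : IsFan fan) (hu : Lin fan c u) {σ : Finset (Fin (n + 1) → ℕ)}
    (hσ : σ ∈ fan) (hfull : IsFull σ) : ∃ m : Fin p → Fin (n + 1) → ℚ,
      (∀ i, ∑ k, m i k = β i) ∧ ∀ i, ∀ s ∈ σ, ∑ k, m i k * s k = - c i s := by
  classical
  obtain ⟨⟨k0, hk0⟩, -⟩ := hfull
  refine ⟨fun i k => if k = k0 then β i + ∑ l ∈ Finset.univ.erase k0, u σ i l else - u σ i k,
    fun i => ?_, fun i s hs => ?_⟩
  · rw [← Finset.add_sum_erase _ _ (Finset.mem_univ k0)]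
    dsimp only
    rw [if_pos rfl, Finset.sum_congr rfl fun k hk => if_neg (Finset.ne_of_mem_erase hk),
      Finset.sum_neg_distrib]
    ring
  · rw [hu σ hσ i s (hf.gen σ hσ s hs).2 (inCone_smul hs zero_le_one fun k => (one_mul _).symm),
      ← Finset.sum_neg_distrib]
    refine Finset.sum_congr rfl fun k _ => ?_
    by_cases hk : k = k0
    · rw [hk, hk0 s hs]
      simp
    · dsimp only
      rw [if_neg hk]
      ring

/-- the local equations are unique -/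
theorem loc_unique {σ : Finset (Fin (n + 1) → ℕ)} (hfull : IsFull σ) {m m' : Fin (n + 1) → ℚ}
    (h : ∑ k, m k = ∑ k, m' k) (h' : ∀ s ∈ σ, ∑ k, m k * (s k : ℚ) = ∑ k, m' k * (s k : ℚ))
    (v : Fin (n + 1) → ℕ) : ∑ k, m k * (v k : ℚ) = ∑ k, m' k * (v k : ℚ) := by
  obtain ⟨-, hfull⟩ := hfull
  obtain ⟨ρ, t, hρ⟩ := hfull v
  have key : ∀ m : Fin (n + 1) → ℚ, ∑ k, m k * (v k : ℚ) = t * ∑ k, m k +
      ∑ s ∈ σ, ρ s * ∑ k, m k * (s k : ℚ) := by
    intro m
    simp only [hρ, mul_add, Finset.sum_add_distrib, Finset.mul_sum]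
    congr 1
    · exact Finset.sum_congr rfl fun k _ => by ring
    · rw [Finset.sum_comm]
      exact Finset.sum_congr rfl fun s _ => Finset.sum_congr rfl fun k _ => by ring
  have h2 : ∑ s ∈ σ, ρ s * ∑ k, m k * (s k : ℚ) = ∑ s ∈ σ, ρ s * ∑ k, m' k * (s k : ℚ) :=
    Finset.sum_congr rfl fun s hs => by rw [h' s hs]
  rw [key m, key m', h, h2]

/-- convexity in terms of one local equation -/
theorem IsConvex.le (hf : IsFan fan) (hu : Lin fan c u) (hfull : ∀ σ ∈ fan, IsFull σ)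
    {μ : Fin p → ℤ} (hμ : IsConvex fan c β fun i => (μ i : ℝ)) {σ : Finset (Fin (n + 1) → ℕ)}
    (hσ : σ ∈ fan) {m : Fin (n + 1) → ℚ} (hm1 : ∑ k, m k = ((∑ i, μ i * β i : ℤ) : ℚ))
    (hm2 : ∀ s ∈ σ, ∑ k, m k * s k = - ∑ i, (μ i : ℚ) * c i s) {v : Fin (n + 1) → ℕ}
    (hv : ∃ k, v k = 0) : - ∑ i, (μ i : ℚ) * c i v ≤ ∑ k, m k * v k := by
  classical
  obtain ⟨m0, h1, h2⟩ := exists_loc (β := β) hf hu hσ (hfull σ hσ)
  have h3 := hμ σ hσ m0 h1 h2 v hv
  have h4 : ∑ k, m k * (v k : ℚ) = ∑ k, (∑ i, (μ i : ℚ) * m0 i k) * (v k : ℚ) := by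
    refine loc_unique (hfull σ hσ) ?_ (fun s hs => ?_) v
    · rw [hm1, Finset.sum_comm]
      push_cast
      refine Finset.sum_congr rfl fun i _ => ?_
      rw [← Finset.mul_sum, h1]
    · rw [hm2 s hs, ← Finset.sum_neg_distrib]
      simp only [Finset.sum_mul]
      rw [Finset.sum_comm]
      refine Finset.sum_congr rfl fun i _ => ?_
      have h5 := h2 i s hs
      have h6 : ∑ k, (μ i : ℚ) * m0 i k * (s k : ℚ) = μ i * ∑ k, m0 i k * (s k : ℚ) := by
        rw [Finset.mul_sum]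
        exact Finset.sum_congr rfl fun k _ => by ring
      rw [h6, h5]
      ring
  have h5 : ∑ k, (∑ i, (μ i : ℚ) * m0 i k) * (v k : ℚ) =
      ∑ i, (μ i : ℚ) * ∑ k, m0 i k * (v k : ℚ) := by
    simp only [Finset.sum_mul, Finset.mul_sum]
    rw [Finset.sum_comm]
    exact Finset.sum_congr rfl fun i _ => Finset.sum_congr rfl fun k _ => by ring
  rw [h4, h5]
  have h6 : ∑ i, (μ i : ℝ) * ((c i v + ∑ k, m0 i k * v k : ℚ) : ℝ) =
      ((∑ i, (μ i : ℚ) * c i v + ∑ i, (μ i : ℚ) * ∑ k, m0 i k * (v k : ℚ) : ℚ) : ℝ) := by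
    push_cast
    rw [← Finset.sum_add_distrib]
    exact Finset.sum_congr rfl fun i _ => by ring
  rw [h6] at h3
  have h7 : (0 : ℚ) ≤ ∑ i, (μ i : ℚ) * c i v + ∑ i, (μ i : ℚ) * ∑ k, m0 i k * (v k : ℚ) := by
    exact_mod_cast h3
  linarith

end comb

variable {n p : ℕ} {K : Type} [Field K] [Algebra ℂ K] {x : Fin (n + 1) → K}
  {fan : Finset (Finset (Fin (n + 1) → ℕ))}
  {c : Fin p → (Fin (n + 1) → ℕ) → ℚ} {u : Finset (Fin (n + 1) → ℕ) → Fin p → Fin (n + 1) → ℚ}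
  {β : Fin p → ℤ} {δ : Fin p → Place ℂ K → ℚ}

/-- the monomials of the local equations are sections of a convex Cartier combination -/
theorem sec_of_cvx (hx0 : x 0 ≠ 0) (hbas : IsTranscendenceBasis ℂ (affine x))
    (hfan : IsFan fan) (hu : Lin fan c u) (hfull : ∀ σ ∈ fan, IsFull σ)
    (hδ : ∀ i P, δ i P = coefficient x (c i) (β i) P) {μ : Fin p → ℤ}
    (hμ : IsConvex fan c β fun i => (μ i : ℝ)) (hc : IsCartier fan c β μ)
    {σ : Finset (Fin (n + 1) → ℕ)} (hσ : σ ∈ fan) :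
    ∃ f : K, f ≠ 0 ∧ IsSection n δ μ f ∧ ∀ P : Place ℂ K, InCone σ (multiplicities x P) →
      (P.ord f : ℚ) ≤ - ∑ i, (μ i : ℚ) * δ i P := by
  classical
  obtain ⟨m, hm1, hm2⟩ := hc σ hσ
  have hxne := x_ne hx0 hbas
  have hf0 : ∏ k, x k ^ m k ≠ 0 := Finset.prod_ne_zero_iff.2 fun k _ => zpow_ne_zero _ (hxne k)
  have hm1' : ∑ k, (m k : ℚ) = ((∑ i, μ i * β i : ℤ) : ℚ) := by
    rw [← hm1]
    push_cast
    rfl
  have hord : ∀ P' : Place ℂ K, (P'.ord (∏ k, x k ^ m k) : ℚ) =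
      ∑ k, (m k : ℚ) * multiplicities x P' k + ((∑ i, μ i * β i : ℤ) : ℚ) * minimalOrder x P' := by
    intro P'
    rw [ord_prod' P' Finset.univ _ fun k _ => zpow_ne_zero _ (hxne k), ← hm1', Finset.sum_mul,
      ← Finset.sum_add_distrib]
    push_cast
    refine Finset.sum_congr rfl fun k _ => ?_
    rw [P'.ord_zpow]
    have h1 : (multiplicities x P' k : ℚ) = P'.ord (x k) - minimalOrder x P' := by
      exact_mod_cast vec_eq x P' k
    rw [h1]
    push_cast
    ring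
  have hδs : ∀ P' : Place ℂ K, - ∑ i, (μ i : ℚ) * δ i P' =
      - ∑ i, (μ i : ℚ) * c i (multiplicities x P') +
        ((∑ i, μ i * β i : ℤ) : ℚ) * minimalOrder x P' := by
    intro P'
    push_cast
    rw [Finset.sum_mul, ← Finset.sum_neg_distrib, ← Finset.sum_neg_distrib,
      ← Finset.sum_add_distrib]
    exact Finset.sum_congr rfl fun i _ => by rw [hδ, coefficient]; ring
  refine ⟨∏ k, x k ^ m k, hf0, fun P' _ => Or.inr ?_, fun P hcone => ?_⟩
  · rw [hδs, hord]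
    have h1 := hμ.le hfan hu hfull hσ hm1' hm2 (vec_zero x P')
    linarith
  · rw [hδs, hord]
    obtain ⟨w, hw, hwv⟩ := id hcone
    have h1 : ∑ k, (m k : ℚ) * multiplicities x P k =
        - ∑ i, (μ i : ℚ) * c i (multiplicities x P) := by
      have h2 : ∀ i, c i (multiplicities x P) = ∑ s ∈ σ, w s * c i s := by
        intro i
        rw [hu σ hσ i _ (vec_zero x P) hcone]
        have h3 : ∀ s ∈ σ, w s * c i s = ∑ k, w s * (u σ i k * s k) := fun s hs => by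
          rw [hu σ hσ i s (hfan.gen σ hσ s hs).2
            (inCone_smul hs zero_le_one fun k => (one_mul _).symm), Finset.mul_sum]
        rw [Finset.sum_congr rfl h3, Finset.sum_comm]
        refine Finset.sum_congr rfl fun k _ => ?_
        rw [hwv k, Finset.mul_sum]
        exact Finset.sum_congr rfl fun s _ => by ring
      simp only [hwv, h2, Finset.mul_sum, ← Finset.sum_neg_distrib]
      rw [Finset.sum_comm, Finset.sum_comm (s := Finset.univ (α := Fin p))]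
      refine Finset.sum_congr rfl fun s hs => ?_
      have h3 := hm2 s hs
      have h4 : ∑ k, (m k : ℚ) * (w s * s k) = w s * ∑ k, (m k : ℚ) * s k := by
        rw [Finset.mul_sum]
        exact Finset.sum_congr rfl fun k _ => by ring
      rw [h4, h3, ← Finset.sum_neg_distrib, Finset.mul_sum]
      exact Finset.sum_congr rfl fun i _ => by ring
    linarith

/-- convex Cartier combinations have no base points -/
theorem free_of_cvx (hx0 : x 0 ≠ 0) (hbas : IsTranscendenceBasis ℂ (affine x))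
    (hfan : IsFan fan) (hu : Lin fan c u) (hfull : ∀ σ ∈ fan, IsFull σ)
    (hδ : ∀ i P, δ i P = coefficient x (c i) (β i) P) {μ : Fin p → ℤ}
    (hμ : IsConvex fan c β fun i => (μ i : ℝ)) (hc : IsCartier fan c β μ) :
    BasePointFree n δ μ := by
  intro P hP
  obtain ⟨σ, hσ, hcone⟩ := hfan.cover _ (vec_zero x P)
  obtain ⟨f, hf0, hf, hf'⟩ := sec_of_cvx hx0 hbas hfan hu hfull hδ hμ hc hσ
  exact ⟨f, hf0, hf, hf' P hcone⟩

/-- convex Cartier combinations are free -/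
theorem along_of_cvx (hx0 : x 0 ≠ 0) (hbas : IsTranscendenceBasis ℂ (affine x))
    (hfan : IsFan fan) (hu : Lin fan c u) (hfull : ∀ σ ∈ fan, IsFull σ)
    (hδ : ∀ i P, δ i P = coefficient x (c i) (β i) P) {μ : Fin p → ℤ}
    (hμ : IsConvex fan c β fun i => (μ i : ℝ)) (hc : IsCartier fan c β μ) :
    IsFreeAlong n δ Set.univ μ := by
  obtain ⟨σ, hσ, -⟩ := hfan.cover 0 ⟨0, rfl⟩
  obtain ⟨f, hf0, hf, -⟩ := sec_of_cvx hx0 hbas hfan hu hfull hδ hμ hc hσ
  exact ⟨⟨f, hf0, hf⟩, fun P _ hP => free_of_cvx hx0 hbas hfan hu hfull hδ hμ hc P hP⟩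

/-- base point free combinations are convex -/
theorem cvx_of_free {n : ℕ} {x : Fin (n + 1) → K} {fan : Finset (Finset (Fin (n + 1) → ℕ))}
    {c : Fin p → (Fin (n + 1) → ℕ) → ℚ} {u : Finset (Fin (n + 1) → ℕ) → Fin p → Fin (n + 1) → ℚ}
    (hn : 1 ≤ n) (hx0 : x 0 ≠ 0) (hbas : IsTranscendenceBasis ℂ (affine x))
    (hfin : FiniteDimensional (IntermediateField.adjoin ℂ (Set.range (affine x))) K)
    (hfan : IsFan fan) (hu : Lin fan c u) (hfull : ∀ σ ∈ fan, IsFull σ)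
    (hδ : ∀ i P, δ i P = coefficient x (c i) (β i) P) {ν : Fin p → ℤ}
    (hν : IsFreeAlong n δ Set.univ ν) : IsConvex fan c β fun i => (ν i : ℝ) := by
  classical
  obtain ⟨d, rfl⟩ : ∃ d, n = d + 1 := ⟨n - 1, by omega⟩
  intro σ hσ m hm1 hm2 v hv
  obtain ⟨⟨k0, hk0⟩, hfull'⟩ := hfull σ hσ
  have h1 := bpf_cvx hx0 hbas hfin hfan hu β (δ := δ) hδ (ν := ν)
    (fun P hP => hν.2 P (Set.mem_univ P) hP) hσ hk0 hfull'
    (m := fun k => ∑ i, (ν i : ℚ) * m i k) (by
      rw [Finset.sum_comm]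
      push_cast
      refine Finset.sum_congr rfl fun i _ => ?_
      rw [← Finset.mul_sum, hm1]) (fun s hs => by
      simp only [Finset.sum_mul]
      rw [Finset.sum_comm, ← Finset.sum_neg_distrib]
      refine Finset.sum_congr rfl fun i _ => ?_
      have h6 : ∑ k, (ν i : ℚ) * m i k * (s k : ℚ) = ν i * ∑ k, m i k * (s k : ℚ) := by
        rw [Finset.mul_sum]
        exact Finset.sum_congr rfl fun k _ => by ring
      rw [h6, hm2 i s hs]
      ring) v hv
  have h5 : ∑ k, (∑ i, (ν i : ℚ) * m i k) * (v k : ℚ) =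
      ∑ i, (ν i : ℚ) * ∑ k, m i k * (v k : ℚ) := by
    simp only [Finset.sum_mul, Finset.mul_sum]
    rw [Finset.sum_comm]
    exact Finset.sum_congr rfl fun i _ => Finset.sum_congr rfl fun k _ => by ring
  rw [h5] at h1
  have h6 : ∑ i, (ν i : ℝ) * ((c i v + ∑ k, m i k * v k : ℚ) : ℝ) =
      ((∑ i, (ν i : ℚ) * c i v + ∑ i, (ν i : ℚ) * ∑ k, m i k * (v k : ℚ) : ℚ) : ℝ) := by
    push_cast
    rw [← Finset.sum_add_distrib]
    exact Finset.sum_congr rfl fun i _ => by ring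
  rw [h6]
  have h7 : (0 : ℚ) ≤ ∑ i, (ν i : ℚ) * c i v + ∑ i, (ν i : ℚ) * ∑ k, m i k * (v k : ℚ) := by
    linarith
  exact_mod_cast h7

/-- common denominators -/
theorem den_vec {ι : Type*} [Fintype ι] (a : ι → ℚ) : ∃ (d : ℕ) (A : ι → ℤ), 1 ≤ d ∧
    ∀ i, (d : ℚ) * a i = A i := by
  classical
  refine ⟨∏ i, (a i).den, fun i => (a i).num * ∏ j ∈ Finset.univ.erase i, ((a j).den : ℤ),
    Finset.prod_pos fun i _ => (a i).den_pos, fun i => ?_⟩
  rw [← Finset.mul_prod_erase _ _ (Finset.mem_univ i)]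
  push_cast
  have h1 : ((a i).den : ℚ) * a i = (a i).num := Rat.den_mul_eq_num (a i)
  rw [← h1]
  ring

section comb

variable {n p : ℕ} {fan : Finset (Finset (Fin (n + 1) → ℕ))}
  {c : Fin p → (Fin (n + 1) → ℕ) → ℚ} {u : Finset (Fin (n + 1) → ℕ) → Fin p → Fin (n + 1) → ℚ}
  {β : Fin p → ℤ}

theorem IsConvex.sum {B : ℕ} {h : Fin B → Fin p → ℤ}
    (hh : ∀ b, IsConvex fan c β fun i => (h b i : ℝ)) {w : Fin p → ℝ} (hw : w ∈ coneOf h) :
    IsConvex fan c β w := by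
  obtain ⟨t, ht, hw⟩ := hw
  intro σ hσ m h1 h2 v hv
  have h3 : ∑ i, w i * ((c i v + ∑ k, m i k * v k : ℚ) : ℝ) =
      ∑ b, t b * ∑ i, (h b i : ℝ) * ((c i v + ∑ k, m i k * v k : ℚ) : ℝ) := by
    simp only [hw, Finset.sum_mul, Finset.mul_sum]
    rw [Finset.sum_comm]
    exact Finset.sum_congr rfl fun b _ => Finset.sum_congr rfl fun i _ => by ring
  rw [h3]
  exact Finset.sum_nonneg fun b _ => mul_nonneg (ht b) (hh b σ hσ m h1 h2 v hv)

/-- convex integral combinations have Cartier multiples -/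
theorem exists_cartier (hf : IsFan fan) (hu : Lin fan c u) (hfull : ∀ σ ∈ fan, IsFull σ)
    (μ : Fin p → ℤ) : ∃ k : ℕ, 1 ≤ k ∧ IsCartier fan c β fun i => k * μ i := by
  classical
  have h1 : ∀ σ ∈ fan, ∃ d : ℕ, 1 ≤ d ∧ ∃ m : Fin (n + 1) → ℤ,
      ((∑ k, m k : ℤ) : ℚ) = d * ∑ i, μ i * β i ∧
      ∀ s ∈ σ, ∑ k, (m k : ℚ) * s k = - (d * ∑ i, (μ i : ℚ) * c i s) := by
    intro σ hσ
    obtain ⟨m, h1, h2⟩ := exists_loc (β := β) hf hu hσ (hfull σ hσ)
    obtain ⟨d, M, hd, hM⟩ := den_vec fun k => ∑ i, (μ i : ℚ) * m i k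
    refine ⟨d, hd, M, ?_, fun s hs => ?_⟩
    · push_cast
      rw [← Finset.sum_congr rfl fun k _ => hM k, ← Finset.mul_sum, Finset.sum_comm]
      congr 1
      refine Finset.sum_congr rfl fun i _ => ?_
      rw [← Finset.mul_sum, h1]
    · have h3 : ∀ k, (M k : ℚ) * s k = d * ∑ i, μ i * (m i k * s k) := fun k => by
        rw [← hM, Finset.mul_sum, Finset.mul_sum, Finset.sum_mul]
        exact Finset.sum_congr rfl fun i _ => by ring
      rw [Finset.sum_congr rfl fun k _ => h3 k, ← Finset.mul_sum, Finset.sum_comm, ← mul_neg,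
        ← Finset.sum_neg_distrib]
      congr 1
      refine Finset.sum_congr rfl fun i _ => ?_
      rw [← Finset.mul_sum, h2 i s hs]
      ring
  choose! d hd m hm1 hm2 using h1
  refine ⟨∏ σ ∈ fan, d σ, Nat.succ_le_of_lt (Finset.prod_pos fun σ hσ => hd σ hσ),
    fun σ hσ => ?_⟩
  have h3 : ((∏ σ ∈ fan, d σ : ℕ) : ℚ) = (∏ τ ∈ fan.erase σ, d τ : ℕ) * d σ := by
    rw [← Finset.prod_erase_mul _ _ hσ]
    push_cast
    ring
  obtain ⟨D', hD'⟩ : ∃ D' : ℕ, D' = ∏ τ ∈ fan.erase σ, d τ := ⟨_, rfl⟩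
  obtain ⟨D, hD⟩ : ∃ D : ℕ, D = ∏ τ ∈ fan, d τ := ⟨_, rfl⟩
  rw [← hD', ← hD] at h3
  rw [← hD]
  refine ⟨fun k => D' * m σ k, ?_, fun s hs => ?_⟩
  · have h4 : ((∑ k, (D' : ℤ) * m σ k : ℤ) : ℚ) = ((∑ i, (D : ℤ) * μ i * β i : ℤ) : ℚ) := by
      rw [← Finset.mul_sum, Int.cast_mul, hm1 σ hσ]
      push_cast
      rw [h3, Finset.mul_sum, Finset.mul_sum]
      exact Finset.sum_congr rfl fun i _ => by ring
    exact_mod_cast h4
  · have h5 : ∀ k, (((D' : ℤ) * m σ k : ℤ) : ℚ) * s k = D' * (m σ k * s k) := fun k => by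
      push_cast
      ring
    rw [Finset.sum_congr rfl fun k _ => h5 k, ← Finset.mul_sum, hm2 σ hσ s hs]
    have h6 : ∀ i, (((D : ℤ) * μ i : ℤ) : ℚ) * c i s = (D' * d σ) * (μ i * c i s) := fun i => by
      rw [← h3]
      push_cast
      ring
    rw [Finset.sum_congr rfl fun i _ => h6 i, ← Finset.mul_sum]
    ring

/-- the convex combinations form a rational polyhedral cone -/
theorem cvx_cone (hf : IsFan fan) (hu : Lin fan c u) (hfull : ∀ σ ∈ fan, IsFull σ) :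
    ∃ (B : ℕ) (h : Fin B → Fin p → ℤ), {w | IsConvex fan c β w} = coneOf h := by
  classical
  have h1 : ∀ σ ∈ fan, ∃ m : Fin p → Fin (n + 1) → ℚ,
      (∀ i, ∑ k, m i k = β i) ∧ ∀ i, ∀ s ∈ σ, ∑ k, m i k * s k = - c i s := fun σ hσ =>
    exists_loc (β := β) hf hu hσ (hfull σ hσ)
  choose! m hm1 hm2 using h1
  obtain ⟨T, hT⟩ : ∃ T : Finset (Finset (Fin (n + 1) → ℕ) × (Fin (n + 1) → ℕ)),
      T = fan ×ˢ fan.biUnion id := ⟨_, rfl⟩
  have h2 : ∀ q : Finset (Fin (n + 1) → ℕ) × (Fin (n + 1) → ℕ), ∃ (d : ℕ) (A : Fin p → ℤ), 1 ≤ d ∧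
      ∀ i, (d : ℚ) * (c i q.2 + ∑ k, m q.1 i k * q.2 k) = A i := fun q => den_vec _
  choose d A hd hA using h2
  obtain ⟨B, h, hh⟩ := minkowski (p := p) (S := T.card) fun j => A (T.equivFin.symm j).1
  refine ⟨B, h, Set.ext fun w => ?_⟩
  have h3 : ∀ q, ∑ i, (A q i : ℝ) * w i =
      d q * ∑ i, w i * ((c i q.2 + ∑ k, m q.1 i k * q.2 k : ℚ) : ℝ) := by
    intro q
    rw [Finset.mul_sum]
    refine Finset.sum_congr rfl fun i _ => ?_
    have h4 : ((A q i : ℚ) : ℝ) = ((d q * (c i q.2 + ∑ k, m q.1 i k * q.2 k) : ℚ) : ℝ) := by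
      rw [hA q i]
    rw [show (A q i : ℝ) = ((A q i : ℚ) : ℝ) by norm_cast, h4]
    push_cast
    ring
  refine Iff.trans ⟨fun hw j => ?_, fun hw => ?_⟩ (hh w)
  · rw [h3]
    refine mul_nonneg (Nat.cast_nonneg _) ?_
    have hmem := (T.equivFin.symm j).2
    obtain ⟨q, hq⟩ : ∃ q, q = (T.equivFin.symm j).1 := ⟨_, rfl⟩
    rw [← hq] at hmem ⊢
    rw [hT, Finset.mem_product, Finset.mem_biUnion] at hmem
    obtain ⟨hq1, τ, hτ, hq2⟩ := hmem
    exact hw q.1 hq1 (m q.1) (hm1 q.1 hq1) (hm2 q.1 hq1) q.2 (hf.gen τ hτ q.2 hq2).2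
  · intro σ hσ m' h1' h2' v hv
    have hmm : ∀ i, ∑ k, m' i k * (v k : ℚ) = ∑ k, m σ i k * (v k : ℚ) := fun i =>
      loc_unique (hfull σ hσ) ((h1' i).trans (hm1 σ hσ i).symm)
        (fun s hs => (h2' i s hs).trans (hm2 σ hσ i s hs).symm) v
    obtain ⟨τ, hτ, hcone⟩ := hf.cover v hv
    obtain ⟨ω, hω, hωv⟩ := id hcone
    have h5 : ∀ i, c i v = ∑ s ∈ τ, ω s * c i s := by
      intro i
      rw [hu τ hτ i v hv hcone]
      have h6 : ∀ s ∈ τ, ω s * c i s = ∑ k, ω s * (u τ i k * s k) := fun s hs => by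
        rw [hu τ hτ i s (hf.gen τ hτ s hs).2
          (inCone_smul hs zero_le_one fun k => (one_mul _).symm), Finset.mul_sum]
      rw [Finset.sum_congr rfl h6, Finset.sum_comm]
      refine Finset.sum_congr rfl fun k _ => ?_
      rw [hωv k, Finset.mul_sum]
      exact Finset.sum_congr rfl fun s _ => by ring
    have h7 : ∀ i, c i v + ∑ k, m' i k * (v k : ℚ) =
        ∑ s ∈ τ, ω s * (c i s + ∑ k, m σ i k * s k) := by
      intro i
      rw [hmm, h5]
      simp only [hωv, mul_add, Finset.sum_add_distrib, Finset.mul_sum]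
      congr 1
      rw [Finset.sum_comm]
      exact Finset.sum_congr rfl fun s _ => Finset.sum_congr rfl fun k _ => by ring
    have h8 : ∑ i, w i * ((c i v + ∑ k, m' i k * v k : ℚ) : ℝ) =
        ∑ s ∈ τ, (ω s : ℝ) * ∑ i, w i * ((c i s + ∑ k, m σ i k * s k : ℚ) : ℝ) := by
      rw [Finset.sum_congr rfl fun i _ => by rw [h7 i]]
      simp only [Rat.cast_sum, Finset.mul_sum]
      rw [Finset.sum_comm]
      refine Finset.sum_congr rfl fun s _ => Finset.sum_congr rfl fun i _ => ?_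
      rw [Rat.cast_mul]
      ring
    rw [h8]
    refine Finset.sum_nonneg fun s hs => mul_nonneg (by exact_mod_cast hω s) ?_
    have hq : (σ, s) ∈ T := by
      rw [hT, Finset.mem_product, Finset.mem_biUnion]
      exact ⟨hσ, τ, hτ, hs⟩
    have h9 := hw (T.equivFin ⟨(σ, s), hq⟩)
    rw [h3, Equiv.symm_apply_apply] at h9
    have h10 : (0 : ℝ) < d (σ, s) := by exact_mod_cast hd (σ, s)
    exact nonneg_of_mul_nonneg_right h9 h10

end comb

/-- **Nef classes are the convex ones.** -/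
theorem eff_main {n : ℕ} {x : Fin (n + 1) → K} {fan : Finset (Finset (Fin (n + 1) → ℕ))}
    {c : Fin p → (Fin (n + 1) → ℕ) → ℚ} {u : Finset (Fin (n + 1) → ℕ) → Fin p → Fin (n + 1) → ℚ}
    (hn : 1 ≤ n) (hx0 : x 0 ≠ 0) (hbas : IsTranscendenceBasis ℂ (affine x))
    (hfin : FiniteDimensional (IntermediateField.adjoin ℂ (Set.range (affine x))) K)
    (hfan : IsFan fan) (hu : Lin fan c u) (hfull : ∀ σ ∈ fan, IsFull σ)
    (hδ : ∀ i P, δ i P = coefficient x (c i) (β i) P)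
    (hFG : (Pool.Agent.Q57.CX.coxRing n (Pool.Agent.U189.MG.G.ext (minimalOrder x) δ)).FG) :
    (∀ w : Fin p → ℝ, IsFreeAlongUpTo n δ Set.univ w ↔ IsConvex fan c β w) ∧
    (∃ (B : ℕ) (h : Fin B → Fin p → ℤ), (∀ b, IsCartier fan c β (h b)) ∧
      (∀ b, BasePointFree n δ (h b)) ∧ {w | IsConvex fan c β w} = coneOf h) ∧
    ∀ μ : Fin p → ℤ, IsConvex fan c β (fun i => (μ i : ℝ)) → IsCartier fan c β μ →
      BasePointFree n δ μ := by
  classical
  obtain ⟨B, h, hh⟩ := cvx_cone (β := β) hfan hu hfull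
  have h1 := fun b => exists_cartier (β := β) hfan hu hfull (h b)
  choose k hk hk' using h1
  have hsc : {w | IsConvex fan c β w} = coneOf fun b i => k b * h b i := by
    rw [hh]
    refine Set.ext fun w => ⟨?_, ?_⟩
    · rintro ⟨t, ht, hw⟩
      refine ⟨fun b => t b / k b, fun b => div_nonneg (ht b) (Nat.cast_nonneg _), fun i => ?_⟩
      rw [hw i]
      refine Finset.sum_congr rfl fun b _ => ?_
      have : (k b : ℝ) ≠ 0 := by
        have := hk b
        positivity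
      push_cast
      field_simp
    · rintro ⟨t, ht, hw⟩
      refine ⟨fun b => t b * k b, fun b => mul_nonneg (ht b) (Nat.cast_nonneg _), fun i => ?_⟩
      rw [hw i]
      refine Finset.sum_congr rfl fun b _ => ?_
      push_cast
      ring
  have hcb : ∀ b, IsConvex fan c β fun i => (((k b : ℤ) * h b i : ℤ) : ℝ) := by
    intro b
    have : (fun i => (((k b : ℤ) * h b i : ℤ) : ℝ)) ∈ coneOf fun b i => (k b : ℤ) * h b i :=
      ⟨fun b' => if b' = b then 1 else 0, fun b' => by dsimp only; split_ifs <;> norm_num,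
        fun i => by simp⟩
    rw [← hsc] at this
    exact this
  refine ⟨fun w => ⟨fun hw => ?_, fun hw => ?_⟩, ⟨B, fun b i => k b * h b i, hk', fun b =>
    free_of_cvx hx0 hbas hfan hu hfull hδ (hcb b) (hk' b), hsc⟩, fun μ h1 h2 =>
    free_of_cvx hx0 hbas hfan hu hfull hδ h1 h2⟩
  · obtain ⟨L, B', h', hl⟩ := Pool.Agent.U189.MG.G.free_cones (ω := minimalOrder x) (δ := δ)
      (fun S => Pool.Agent.U189.MG.absorb hx0 hbas S) hFG
    obtain ⟨l, hl1, hl2⟩ := hl Set.univ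
    have h3 : w ∈ coneOf (h' l) := by
      rw [← hl2]
      exact hw
    exact IsConvex.sum (fun b => cvx_of_free hn hx0 hbas hfin hfan hu hfull hδ (hl1 b)) h3
  · have h3 : w ∈ coneOf fun b i => (k b : ℤ) * h b i := by
      rw [← hsc]
      exact hw
    exact upto_of_cone (fun b => along_of_cvx hx0 hbas hfan hu hfull hδ (hcb b) (hk' b)) h3

end Pool.Agent.U189.FV
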