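import Pool.Agent.U660.MD.Nef
import Pool.Agent.U189.FV.Eff

/-!
# Nef pullbacks of toric divisors: the statement with nef classes
-/

set_option autoImplicit false
set_option linter.overlappingInstances false
set_option linter.unusedSectionVars false
set_option maxHeartbeats 1000000

open FF MvPolynomial Pool.Agent.W603.LV Pool.Agent.W602.GT Pool.Agent.W602.Cov

namespace Pool.Agent.U189.FV

open Pool.Agent.U189.ND (affine minimalOrder InCone)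
open Pool.Agent.Results.MP_89a3f8_ag.TerminationOfFlips (IsSection BasePointFree)
open Pool.Agent.U189.MG.G (IsFreeAlong IsFreeAlongUpTo IsSectionPlus free_cones upto_of_cone)
open Pool.Agent.U660.MD

variable {p : ℕ} {K : Type} [Field K] [Algebra ℂ K] {δ : Fin p → Place ℂ K → ℚ}

/-- nef classes are those which are limits of classes which are free along all prime divisors -/
theorem nefUp_iff {n : ℕ} {P0 : Place ℂ K} (hP0 : Divisorial n P0) (w : Fin p → ℝ) :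
    IsNefUpTo n δ w ↔ IsFreeAlongUpTo n δ Set.univ w := by
  constructor
  · rintro ⟨S, -, h⟩
    refine ⟨S, fun M hM => ?_⟩
    obtain ⟨j, hj, h1⟩ := h M hM
    have h2 : ∀ (μ : Fin p → ℤ) (f : K), f ≠ 0 → (∀ Q : Place ℂ K, Divisorial n Q → f = 0 ∨
        ∃ s ∈ S, s ≠ 0 ∧ (j : ℚ) * Q.ord s - ∑ i, (μ i : ℚ) * δ i Q ≤ Q.ord f) →
        IsSectionPlus n δ S μ j f := fun μ f hf h3 =>
      ⟨hf, fun Q hQ => (h3 Q hQ).resolve_left hf⟩
    obtain ⟨μ, hμ, f, hf, hf1, -⟩ := h1 P0 hP0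
    refine ⟨j, hj, ⟨μ, hμ, f, h2 μ f hf hf1⟩, fun P _ hP => ?_⟩
    obtain ⟨μ, hμ, f, hf, hf1, hf2⟩ := h1 P hP
    exact ⟨μ, hμ, f, h2 μ f hf hf1, hf2⟩
  · rintro ⟨S, h⟩
    refine ⟨S, ?_, fun M hM => ?_⟩
    · obtain ⟨j, -, ⟨μ, -, f, -, hf⟩, -⟩ := h 1 le_rfl
      obtain ⟨s, hs, hs0, -⟩ := hf P0 hP0
      exact ⟨s, hs, hs0⟩
    · obtain ⟨j, hj, -, h2⟩ := h M hM
      refine ⟨j, hj, fun P hP => ?_⟩
      obtain ⟨μ, hμ, f, ⟨hf, hf1⟩, hf2⟩ := h2 P (Set.mem_univ P) hP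
      exact ⟨μ, hμ, f, hf, fun Q hQ => Or.inr (hf1 Q hQ), hf2⟩

/-- **Nef classes are the convex ones, and they are base point free if they are Cartier.** -/
theorem eff_nef {n : ℕ} {x : Fin (n + 1) → K} {fan : Finset (Finset (Fin (n + 1) → ℕ))}
    {c : Fin p → (Fin (n + 1) → ℕ) → ℚ} {u : Finset (Fin (n + 1) → ℕ) → Fin p → Fin (n + 1) → ℚ}
    {β : Fin p → ℤ}
    (hn : 1 ≤ n) (hx0 : x 0 ≠ 0) (hbas : IsTranscendenceBasis ℂ (affine x))
    (hfin : FiniteDimensional (IntermediateField.adjoin ℂ (Set.range (affine x))) K)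
    (hfan : IsFan fan) (hu : Lin fan c u) (hfull : ∀ σ ∈ fan, IsFull σ)
    (hδ : ∀ i P, δ i P = coefficient x (c i) (β i) P)
    (hFG : (Pool.Agent.Q57.CX.coxRing n (Pool.Agent.U189.MG.G.ext (minimalOrder x) δ)).FG) :
    (∀ w : Fin p → ℝ, IsNefUpTo n δ w ↔ IsConvex fan c β w) ∧
    (∃ (B : ℕ) (h : Fin B → Fin p → ℤ), (∀ b, BasePointFree n δ (h b)) ∧
      {w | IsNefUpTo n δ w} = coneOf h) ∧
    ∀ μ : Fin p → ℤ, IsNefUpTo n δ (fun i => (μ i : ℝ)) → IsCartier fan c β μ →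
      BasePointFree n δ μ := by
  obtain ⟨d, rfl⟩ : ∃ d, n = d + 1 := ⟨n - 1, by omega⟩
  obtain ⟨P0, -, hP0, -⟩ := exists_place_vec hx0 hbas hfin (v := Function.update 0 0 1)
    (fun h => by simpa using congrFun h 0) ⟨1, by simp⟩
  obtain ⟨h1, ⟨B, h, -, h2, h3⟩, h4⟩ := eff_main (by omega) hx0 hbas hfin hfan hu hfull hδ hFG
  have h5 : ∀ w : Fin p → ℝ, IsNefUpTo (d + 1) δ w ↔ IsConvex fan c β w := fun w =>
    (nefUp_iff hP0 w).trans (h1 w)
  refine ⟨h5, ⟨B, h, h2, ?_⟩, fun μ hμ hc => h4 μ ((h5 _).1 hμ) hc⟩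
  rw [← h3]
  exact Set.ext fun w => h5 w

end Pool.Agent.U189.FV
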