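import Pool.Agent.U189.FV.Ring
import Pool.Agent.U189.MG.PsfG

/-!
# Finite covers of toric varieties: the main theorem

**The varieties.** Let `Y` be any normal projective variety of dimension `n ≥ 1` with the function field
`K`, and `x 0, ..., x n` sections of an ample line bundle `H` on `Y` without common zeros (they exist for
a multiple of every ample `H`): they define a finite morphism from `Y` to the projective `n`-space. `K` is
a finite extension of the field generated by the `affine` coordinates `x (b + 1) / x 0`, and every finite
extension of the rational function field in `n` variables occurs. A prime divisor `P` over `Y` (a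
divisorial place of `K`) has the vector `multiplicities x P` of the multiplicities along `P` of the divisors
`x k = 0`; it has some coordinate `0`. The vectors of natural numbers with a coordinate `0` are the lattice
points of the fan of the projective space. The subdivisions of this fan into rational polyhedral cones
give the toric modifications of the projective space; `fan` is the set of the cones, each given by
generators. `X` is the normalization in `K` of such a toric modification. If the divisors `x k = 0` on `Y`
have normal crossings (or are multiples of such divisors) then `X` is a toroidal modification of `Y`. For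
every `Y` and `n` there are infinitely many `X`, with arbitrarily large Picard number.

**The divisors.** `D 1, ..., D p` are the pullbacks to `X` of toric `ℚ`-Cartier divisors. The
coefficient of `D i` at a prime divisor `P` over `X` is `coefficient x (c i) (β i) P = c i v + β i * h`,
where `v` is the vector of the multiplicities, `h` is minus the minimal order at `P` of the `x k` (the
coefficient of the pullback of `H`), and `c i` is linear on the cones.

**Pairs.** If `K_Y` is `ℚ`-linearly equivalent to a rational multiple of `H` (of either sign, or `0`: for
instance `Y` is any Calabi-Yau variety, any abelian variety, any variety with ample `K_Y` and `H` a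
multiple of it, any Fano variety and `H` a multiple of `- K_Y`, or any smooth hypersurface of dimension
`≥ 3`) and the divisors `x k = 0` are multiples of divisors with normal crossings then `K_X + Δ` is a
combination of the `D i` for all divisors `Δ` on `X` which are combinations of the prime divisors of the
boundary of `X` with real coefficients.
-/

set_option autoImplicit false

open FF MvPolynomial Pool.Agent.W602.GT

namespace Pool.Agent.U189.FV

open Pool.Agent.U189.ND (affine minimalOrder InCone)

/-- The coefficient at the prime divisor `P` of the divisor with the function `c` of the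
multiplicities and the degree `β`: it is `c v` plus `β` times the coefficient at `P` of the pullback of
`H`, which is represented by the divisor with the coefficients `- minimalOrder x` (its sections contain the
linear forms in the `x k`). -/
noncomputable def coefficient {n : ℕ} {K : Type} [Field K] [Algebra ℂ K] (x : Fin (n + 1) → K)
    (c : (Fin (n + 1) → ℕ) → ℚ) (β : ℤ) (P : Place ℂ K) : ℚ :=
  c (multiplicities x P) - (β : ℚ) * minimalOrder x P

/-- **The Cox ring.** The ring of all sections of all integral combinations of the `D i` is finitely
generated. -/
theorem cox_fv (n p : ℕ) (hn : 1 ≤ n) (K : Type) [Field K] [Algebra ℂ K] (x : Fin (n + 1) → K)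
    (hx0 : x 0 ≠ 0) (hbas : IsTranscendenceBasis ℂ (affine x))
    (hfin : FiniteDimensional (IntermediateField.adjoin ℂ (Set.range (affine x))) K)
    (fan : Finset (Finset (Fin (n + 1) → ℕ))) (hfan : IsFan fan)
    (c : Fin p → (Fin (n + 1) → ℕ) → ℚ) (β : Fin p → ℤ)
    (u : Finset (Fin (n + 1) → ℕ) → Fin p → Fin (n + 1) → ℚ)
    (hlin : ∀ σ ∈ fan, ∀ i v, (∃ k, v k = 0) → InCone σ v → c i v = ∑ k, u σ i k * v k)
    (δ : Fin p → Place ℂ K → ℚ) (hδ : ∀ i P, δ i P = coefficient x (c i) (β i) P) :
    (Pool.Agent.Q57.CX.coxRing n δ).FG := by
  obtain ⟨d, rfl⟩ : ∃ d, n = d + 1 := ⟨n - 1, by omega⟩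
  exact cox_fin hx0 hbas hfin hfan (u := u) hlin β hδ

/-- The Cox ring of the `D i` together with `H`. -/
theorem cox_fv_ext (n p : ℕ) (hn : 1 ≤ n) (K : Type) [Field K] [Algebra ℂ K]
    (x : Fin (n + 1) → K) (hx0 : x 0 ≠ 0) (hbas : IsTranscendenceBasis ℂ (affine x))
    (hfin : FiniteDimensional (IntermediateField.adjoin ℂ (Set.range (affine x))) K)
    (fan : Finset (Finset (Fin (n + 1) → ℕ))) (hfan : IsFan fan)
    (c : Fin p → (Fin (n + 1) → ℕ) → ℚ) (β : Fin p → ℤ)
    (u : Finset (Fin (n + 1) → ℕ) → Fin p → Fin (n + 1) → ℚ)
    (hlin : ∀ σ ∈ fan, ∀ i v, (∃ k, v k = 0) → InCone σ v → c i v = ∑ k, u σ i k * v k)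
    (δ : Fin p → Place ℂ K → ℚ) (hδ : ∀ i P, δ i P = coefficient x (c i) (β i) P) :
    (Pool.Agent.Q57.CX.coxRing n (Pool.Agent.U189.MG.G.ext (minimalOrder x) δ)).FG := by
  refine cox_fv n (p + 1) hn K x hx0 hbas hfin fan hfan
    (Fin.cons (α := fun _ => (Fin (n + 1) → ℕ) → ℚ) (fun _ => 0) c)
    (Fin.cons (α := fun _ => ℤ) 1 β)
    (fun σ => Fin.cons (α := fun _ => Fin (n + 1) → ℚ) (fun _ => 0) (u σ))
    (fun σ hσ i v hv hc => ?_) _ (fun i P => ?_)
  · induction i using Fin.cases with
    | zero => simp
    | succ i => simpa using hlin σ hσ i v hv hc
  · induction i using Fin.cases with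
    | zero =>
      simp only [Pool.Agent.U189.MG.G.ext, Fin.cons_zero, coefficient]
      push_cast
      ring
    | succ i => simpa only [Pool.Agent.U189.MG.G.ext, Fin.cons_succ] using hδ i P

end Pool.Agent.U189.FV
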