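import Pool.Agent.U189.FV.Top

/-!
Base point free combinations of pullbacks of toric divisors are given by convex functions.
-/

set_option autoImplicit false
set_option linter.overlappingInstances false
set_option linter.unusedSectionVars false
set_option maxHeartbeats 1000000

open FF MvPolynomial IntermediateField Pool.Agent.W603.LV Pool.Agent.W619.PQ
open Pool.Agent.W619.TW Pool.Agent.W602.GT Pool.Agent.TH122.AB Pool.Agent.TH756.PN
open Pool.Agent.Y169.CH Pool.Agent.W602.Cov.G Pool.Agent.Y169.TH Pool.Agent.Q57.TP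
open Pool.Agent.Q57.GM Pool.Agent.Q57.FG Pool.Agent.Q57.FT

namespace Pool.Agent.U189.FV

open Pool.Agent.U189.ND (affine minimalOrder InCone)

variable {d : ℕ} {K : Type} [Field K] [Algebra ℂ K] {x : Fin (d + 2) → K}

/-- there are prime divisors with every vector, up to a multiple -/
theorem exists_place_vec (hx0 : x 0 ≠ 0) (hbas : IsTranscendenceBasis ℂ (affine x))
    (hfd : FiniteDimensional (IntermediateField.adjoin ℂ (Set.range (affine x))) K)
    {v : Fin (d + 2) → ℕ} (hv0 : v ≠ 0) (hv : ∃ k, v k = 0) :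
    ∃ (P : Place ℂ K) (r : ℚ), Divisorial (d + 1) P ∧ 0 < r ∧
      ∀ k, (multiplicities x P k : ℚ) = r * v k := by
  classical
  obtain ⟨K', iF, iA, iK, hT', G, fG, a1, a2, a3, a4, X, hX, hXZ, hbX⟩ :=
    exists_closure hbas hfd
  have hz : (fun l : Fin (d + 1) => ((v l.succ : ℤ) - v 0)) ≠ 0 := by
    intro h0
    obtain ⟨k, hk⟩ := hv
    have h2 : ∀ l : Fin (d + 1), (v l.succ : ℤ) = v 0 := fun l => by
      have := congrFun h0 l
      simp only [Pi.zero_apply] at this
      linarith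
    have h3 : v 0 = 0 := by
      refine Fin.cases (fun h => h) (fun l hl => ?_) k hk
      have := h2 l
      rw [hl] at this
      exact_mod_cast this.symm
    apply hv0
    funext l
    refine Fin.cases h3 (fun l => ?_) l
    have := h2 l
    rw [h3] at this
    exact_mod_cast this
  obtain ⟨gs, lam, hg1, hglam, hprim⟩ := exists_prim _ hz
  obtain ⟨vs, hvs⟩ := exists_zmono hX _ hprim
  obtain ⟨ws, es, Is, hws, -, -⟩ := exists_inertia G vs
  obtain ⟨P, e1, e2, h1, h2, he⟩ := exists_restr (K := K) hws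
  have hl0 : ∃ l, lam l ≠ 0 := by
    by_contra hcon
    push Not at hcon
    apply hz
    funext l
    rw [hglam l, hcon l]
    simp
  obtain ⟨l0, hl0⟩ := hl0
  have hdiv : Divisorial (d + 1) P := div_zmono hX lam hl0 hvs h2
  have hordt : ∀ l, P.ord (affine x l) = e2 * lam l := by
    intro l
    have h3 := hvs (MvPolynomial.X l) (X_ne_zero _)
    rw [aeval_X, zord_X] at h3
    rw [← hXZ, h2.2, h3]
  have hgq : (0 : ℚ) < gs := by exact_mod_cast hg1
  have he2 : (0 : ℚ) < e2 := by exact_mod_cast h2.1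
  have hvec0 : ∀ l : Fin (d + 1), (gs : ℤ) * ((multiplicities x P l.succ : ℤ) -
      multiplicities x P 0) = e2 * ((v l.succ : ℤ) - v 0) := by
    intro l
    have h3 := hordt l
    rw [ord_aff hx0 hbas] at h3
    rw [h3, hglam l]
    ring
  have hall : ∀ k, (gs : ℤ) * multiplicities x P k - e2 * v k =
      gs * multiplicities x P 0 - e2 * v 0 := by
    intro k
    refine Fin.cases rfl (fun l => ?_) k
    have h4 := hvec0 l
    linarith
  have hc : (gs : ℤ) * multiplicities x P 0 = e2 * v 0 := by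
    obtain ⟨k, hk⟩ := vec_zero x P
    obtain ⟨k', hk'⟩ := hv
    have h4 := hall k
    have h5 := hall k'
    rw [hk] at h4
    rw [hk'] at h5
    push_cast at h4 h5
    have h6 : (0 : ℤ) ≤ e2 * (v k : ℤ) := by positivity
    have h7 : (0 : ℤ) ≤ gs * (multiplicities x P k' : ℤ) := by positivity
    linarith
  refine ⟨P, e2 / gs, hdiv, by positivity, ?_⟩
  have hc' : (gs : ℚ) * multiplicities x P 0 = e2 * v 0 := by exact_mod_cast hc
  intro k
  have h3 : (gs : ℚ) * multiplicities x P k = e2 * v k := by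
    refine Fin.cases hc' (fun l => ?_) k
    have h4 : (gs : ℚ) * ((multiplicities x P l.succ : ℚ) - multiplicities x P 0) =
      e2 * ((v l.succ : ℚ) - v 0) := by exact_mod_cast hvec0 l
    linarith
  field_simp
  linarith

/-- a term of small order -/
theorem exists_term {P : Place ℂ K} {N0 : ℕ} {g : K} (hg : g ≠ 0)
    {R : Fin N0 → MvPolynomial (Fin (d + 1)) ℂ} {β : Fin N0 → K}
    (h : g = ∑ i, aeval (affine x) (R i) * β i) :
    ∃ i, ∃ a ∈ (R i).support, β i ≠ 0 ∧ (∏ l, affine x l ^ a l) * β i ≠ 0 ∧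
      P.ord ((∏ l, affine x l ^ a l) * β i) ≤ P.ord g := by
  classical
  by_contra hcon
  push Not at hcon
  have h1 : Ge P (P.ord g + 1) g := by
    conv_rhs => rw [h]
    refine Ge.sum _ _ fun i _ => ?_
    have h3 : aeval (affine x) (R i) = ∑ a ∈ (R i).support, algebraMap ℂ K (coeff a (R i)) *
        ∏ l, affine x l ^ a l := by
      conv_lhs => rw [(R i).as_sum, map_sum]
      refine Finset.sum_congr rfl fun a _ => ?_
      rw [aeval_monomial, Finsupp.prod_fintype _ _ fun i => pow_zero _]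
    rw [h3, Finset.sum_mul]
    refine Ge.sum _ _ fun a ha => ?_
    rw [mul_assoc]
    have h4 : Ge P (0 + (P.ord g + 1)) (algebraMap ℂ K (coeff a (R i)) *
        ((∏ l, affine x l ^ a l) * β i)) := by
      refine Ge.mul (Ge.const _) ?_
      by_cases h5 : (∏ l, affine x l ^ a l) * β i = 0
      · exact Or.inl h5
      · right
        have h6 := hcon i a ha (fun h7 => h5 (by rw [h7, mul_zero])) h5
        omega
    rwa [zero_add] at h4
  have h2 := h1.resolve_left hg
  omega

/-- the pairing in affine coordinates -/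
theorem pair_affine {m v : Fin (d + 2) → ℚ} {b : ℚ} (hm : ∑ k, m k = b) :
    ∑ k, m k * v k = b * v 0 + ∑ l : Fin (d + 1), m l.succ * (v l.succ - v 0) := by
  have h1 : ∑ l : Fin (d + 1), m l.succ * v l.succ = ∑ l : Fin (d + 1), m l.succ * v 0 +
      ∑ l : Fin (d + 1), m l.succ * (v l.succ - v 0) := by
    rw [← Finset.sum_add_distrib]
    exact Finset.sum_congr rfl fun l _ => by ring
  rw [Fin.sum_univ_succ, ← hm, Fin.sum_univ_succ (f := m), add_mul, Finset.sum_mul, h1]
  exact (add_assoc _ _ _).symm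

/-- **Base point free combinations are convex.** -/
theorem bpf_cvx {p : ℕ} (hx0 : x 0 ≠ 0) (hbas : IsTranscendenceBasis ℂ (affine x))
    (hfd : FiniteDimensional (IntermediateField.adjoin ℂ (Set.range (affine x))) K)
    {fan : Finset (Finset (Fin (d + 2) → ℕ))} (hfan : IsFan fan)
    {c : Fin p → (Fin (d + 2) → ℕ) → ℚ} {u : Finset (Fin (d + 2) → ℕ) → Fin p → Fin (d + 2) → ℚ}
    (hu : Lin fan c u) (β : Fin p → ℤ) {δ : Fin p → Place ℂ K → ℚ}
    (hδ : ∀ i P, δ i P = c i (multiplicities x P) - (β i : ℚ) * minimalOrder x P)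
    {ν : Fin p → ℤ} (hν : ∀ P : Place ℂ K, Divisorial (d + 1) P → ∃ f : K, f ≠ 0 ∧
      ZSec (d + 1) δ ν f ∧ (P.ord f : ℚ) ≤ - ∑ i, (ν i : ℚ) * δ i P)
    {σ : Finset (Fin (d + 2) → ℕ)} (hσ : σ ∈ fan) {k0 : Fin (d + 2)} (hk0 : ∀ s ∈ σ, s k0 = 0)
    (hfull : ∀ v : Fin (d + 2) → ℕ, ∃ (ρ : (Fin (d + 2) → ℕ) → ℚ) (t : ℚ),
      ∀ k, (v k : ℚ) = t + ∑ s ∈ σ, ρ s * s k)
    {m : Fin (d + 2) → ℚ} (hm1 : ∑ k, m k = ((∑ i, ν i * β i : ℤ) : ℚ))
    (hm2 : ∀ s ∈ σ, ∑ k, m k * s k = - ∑ i, (ν i : ℚ) * c i s)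
    (v' : Fin (d + 2) → ℕ) (hv' : ∃ k, v' k = 0) :
    - ∑ i, (ν i : ℚ) * c i v' ≤ ∑ k, m k * v' k := by
  classical
  obtain ⟨b, hb⟩ : ∃ b : ℤ, b = ∑ i, ν i * β i := ⟨_, rfl⟩
  rw [← hb] at hm1
  obtain ⟨h, hh⟩ : ∃ h : (Fin (d + 2) → ℕ) → ℚ, h = fun v => - ∑ i, (ν i : ℚ) * c i v :=
    ⟨_, rfl⟩
  have hhv : ∀ v, - ∑ i, (ν i : ℚ) * c i v = h v := fun v => by rw [hh]
  simp only [hhv] at hm2 ⊢
  have hδs : ∀ P : Place ℂ K, - ∑ i, (ν i : ℚ) * δ i P =
      h (multiplicities x P) + b * minimalOrder x P := by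
    intro P
    rw [← hhv, hb]
    push_cast
    rw [Finset.sum_mul, ← Finset.sum_neg_distrib, ← Finset.sum_neg_distrib,
      ← Finset.sum_add_distrib]
    exact Finset.sum_congr rfl fun i _ => by rw [hδ]; ring
  -- the vector in the interior
  obtain ⟨V0, hV0⟩ : ∃ V0 : Fin (d + 2) → ℕ, V0 = fun k => ∑ s ∈ σ, s k := ⟨_, rfl⟩
  have hV00 : V0 k0 = 0 := by
    rw [hV0]
    exact Finset.sum_eq_zero fun s hs => hk0 s hs
  have hV0ne : V0 ≠ 0 := by
    intro h0
    have h1 : ∀ s ∈ σ, ∀ k, s k = 0 := by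
      intro s hs k
      have h2 := congrFun h0 k
      rw [hV0] at h2
      exact (Finset.sum_eq_zero_iff.1 h2) s hs
    obtain ⟨ρ, t, hρ⟩ := hfull (Pi.single 0 1)
    have h2 := hρ 0
    have h3 := hρ 1
    have h4 : ∀ k, ∑ s ∈ σ, ρ s * (s k : ℚ) = 0 := fun k =>
      Finset.sum_eq_zero fun s hs => by rw [h1 s hs k]; simp
    rw [h4] at h2 h3
    rw [Pi.single_eq_same] at h2
    rw [Pi.single_eq_of_ne (by simp : (1 : Fin (d + 2)) ≠ 0)] at h3
    push_cast at h2 h3
    linarith
  obtain ⟨P, r, hP, hr, hPv⟩ := exists_place_vec hx0 hbas hfd hV0ne ⟨k0, hV00⟩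
  obtain ⟨f, hf0, hfs, hfP⟩ := hν P hP
  rw [hδs] at hfP
  -- the value of `h` at `P`
  have hPvec : ∀ k, (multiplicities x P k : ℚ) = ∑ s ∈ σ, r * (s k : ℚ) := by
    intro k
    rw [hPv, hV0, ← Finset.mul_sum]
    push_cast
    rfl
  have hPin : InCone σ (multiplicities x P) := ⟨fun _ => r, fun _ => hr.le, hPvec⟩
  have hhP : h (multiplicities x P) = r * ∑ s ∈ σ, h s := by
    have h1 : ∀ i, c i (multiplicities x P) = r * ∑ s ∈ σ, c i s := by
      intro i
      rw [hu σ hσ i _ (vec_zero x P) hPin]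
      have h2 : ∀ s ∈ σ, c i s = ∑ k, u σ i k * s k := fun s hs =>
        hu σ hσ i s (hfan.gen σ hσ s hs).2 (inCone_smul hs zero_le_one fun k => (one_mul _).symm)
      rw [Finset.sum_congr rfl h2, Finset.sum_comm, Finset.mul_sum]
      refine Finset.sum_congr rfl fun k _ => ?_
      rw [hPvec k, ← Finset.mul_sum, ← Finset.mul_sum]
      ring
    rw [hh]
    simp only [h1]
    rw [Finset.mul_sum, ← Finset.sum_neg_distrib]
    have h3 : ∀ s ∈ σ, r * -∑ i, (ν i : ℚ) * c i s = ∑ i, -((ν i : ℚ) * (r * c i s)) := by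
      intro s _
      rw [← Finset.sum_neg_distrib, Finset.mul_sum]
      exact Finset.sum_congr rfl fun i _ => by ring
    rw [Finset.sum_congr rfl h3, Finset.sum_comm]
    refine Finset.sum_congr rfl fun i _ => ?_
    rw [Finset.sum_neg_distrib, Finset.mul_sum, Finset.mul_sum]
  -- the constants
  obtain ⟨T, hTd⟩ : ∃ T : Finset (Fin (d + 2) → ℕ), T = fan.biUnion id := ⟨_, rfl⟩
  have hTmem : ∀ s : T, ∃ σ ∈ fan, s.1 ∈ σ := by
    intro s
    have h1 : s.1 ∈ fan.biUnion id := hTd ▸ s.2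
    obtain ⟨σ, hσ, hsσ⟩ := Finset.mem_biUnion.1 h1
    exact ⟨σ, hσ, hsσ⟩
  have hTs : ∀ s : T, s.1 ≠ 0 ∧ ∃ k, s.1 k = 0 := by
    intro s
    obtain ⟨σ, hσ, hsσ⟩ := hTmem s
    exact hfan.gen σ hσ s.1 hsσ
  obtain ⟨C0, hC0⟩ := hfan.bdd hu
  obtain ⟨N0, βK, Q, c1, hQ, hstr⟩ := sec_str hx0 hbas hfd (fun s : T => s.1) hTs
  have htne : ∀ l, affine x l ≠ 0 := fun l => hbas.1.ne_zero l
  have hprod0 : (∏ l, affine x l) ≠ 0 := Finset.prod_ne_zero_iff.2 fun l _ => htne l
  obtain ⟨M0, hM0⟩ : ∃ M0 : ℕ, (∑ i, |(ν i : ℚ)| * C0) ≤ M0 := exists_nat_ge _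
  have hbd : ∀ v, (∃ k, v k = 0) → -(M0 * ∑ k, (v k : ℚ)) ≤ h v := by
    intro v hv
    have h1 : |∑ i, (ν i : ℚ) * c i v| ≤ M0 * ∑ k, (v k : ℚ) := by
      have h2 : (0 : ℚ) ≤ ∑ k, (v k : ℚ) := Finset.sum_nonneg fun _ _ => by positivity
      calc |∑ i, (ν i : ℚ) * c i v| ≤ ∑ i, |(ν i : ℚ) * c i v| :=
            Finset.abs_sum_le_sum_abs _ _
        _ ≤ ∑ i, |(ν i : ℚ)| * C0 * ∑ k, (v k : ℚ) := by
            refine Finset.sum_le_sum fun i _ => ?_
            rw [abs_mul, mul_assoc]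
            exact mul_le_mul_of_nonneg_left (hC0 i v hv) (abs_nonneg _)
        _ = (∑ i, |(ν i : ℚ)| * C0) * ∑ k, (v k : ℚ) := by rw [Finset.sum_mul]
        _ ≤ _ := mul_le_mul_of_nonneg_right hM0 h2
    have h3 := le_abs_self (∑ i, (ν i : ℚ) * c i v)
    rw [← hhv]
    linarith
  obtain ⟨c2, hc2⟩ : ∃ c2 : ℚ, ∀ i, (P.ord Q : ℚ) - P.ord (βK i) ≤ c2 := by
    refine ⟨∑ i, |(P.ord Q : ℚ) - P.ord (βK i)|, fun i => ?_⟩
    exact (le_abs_self _).trans (Finset.single_le_sum
      (f := fun i => |(P.ord Q : ℚ) - P.ord (βK i)|) (fun _ _ => abs_nonneg _) (Finset.mem_univ i))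
  have hc20 : 0 ≤ |c2| := abs_nonneg _
  have hc2' := le_abs_self c2
  -- the main estimate
  obtain ⟨e0, he0⟩ : ∃ e0 : (Fin (d + 1) → ℚ) → (Fin (d + 2) → ℕ) → ℚ,
    e0 = fun e s => ∑ l, e l * ((s l.succ : ℚ) - s 0) := ⟨_, rfl⟩
  have hbs : ∀ s : Fin (d + 2) → ℕ, ∑ k, m k * (s k : ℚ) = b * s 0 +
      e0 (fun l => m l.succ) s := by
    intro s
    rw [he0]
    exact pair_affine (v := fun k => (s k : ℚ)) hm1
  obtain ⟨c3, hc3⟩ : ∃ c3 : ℚ, c3 = |c2| / r + (σ.card : ℚ) * c1 + c1 := ⟨_, rfl⟩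
  have hray : ∀ s : T, h s.1 ≤ ∑ k, m k * (s.1 k : ℚ) := by
    intro s'
    obtain ⟨ρ, t, hρ⟩ := hfull s'.1
    obtain ⟨c4, hc4⟩ : ∃ c4 : ℚ, c4 = ∑ s ∈ σ, |ρ s| * c3 := ⟨_, rfl⟩
    have key : ∀ k : ℕ, (k : ℚ) * (h s'.1 - ∑ k, m k * (s'.1 k : ℚ)) ≤ c1 + c4 := by
      intro k
      have hfk : f ^ k ≠ 0 := pow_ne_zero _ hf0
      obtain ⟨R, hR, hRs⟩ := hstr (fun v => (k : ℚ) * h v) (k * b) (k * M0) (f ^ k)
        (fun s r v hr hv => by
          obtain ⟨σ', hσ', hsσ'⟩ := hTmem s
          rw [← hhv, ← hhv]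
          have h1 : ∀ i, c i v = r * c i s.1 := fun i => hu.ray hσ' hsσ' (hTs s).2 hr hv i
          simp only [h1]
          have h2 : ∑ i, (ν i : ℚ) * (r * c i s.1) = r * ∑ i, (ν i : ℚ) * c i s.1 := by
            rw [Finset.mul_sum]
            exact Finset.sum_congr rfl fun i _ => by ring
          rw [h2]
          ring)
        (fun v hv => by
          have h1 := hbd v hv
          have h2 : (0 : ℚ) ≤ k := by positivity
          have h3 := mul_le_mul_of_nonneg_left h1 h2
          push_cast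
          linarith)
        (fun P' hP' => by
          right
          have h1 := (hfs P' hP').resolve_left hf0
          rw [hδs] at h1
          have h2 : (0 : ℚ) ≤ k := by positivity
          have h3 := mul_le_mul_of_nonneg_left h1 h2
          rw [P'.ord_pow]
          push_cast
          linarith)
      obtain ⟨g, hg⟩ : ∃ g, g = f ^ k * x 0 ^ (-(k * b : ℤ)) * (∏ l, affine x l) ^ (k * M0) * Q :=
        ⟨_, rfl⟩
      have hg0 : g ≠ 0 := by
        rw [hg]
        exact mul_ne_zero (mul_ne_zero (mul_ne_zero hfk (zpow_ne_zero _ hx0))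
          (pow_ne_zero _ hprod0)) hQ
      rw [← hg] at hR
      obtain ⟨i, a, ha, hβ0, -, hord⟩ := exists_term (P := P) hg0 hR
      have hord1 : P.ord g = k * P.ord f - k * b * P.ord (x 0) + k * M0 * ∑ l, P.ord (affine x l) +
          P.ord Q := by
        rw [hg, P.ord_mul (mul_ne_zero (mul_ne_zero hfk (zpow_ne_zero _ hx0))
          (pow_ne_zero _ hprod0)) hQ, P.ord_mul (mul_ne_zero hfk (zpow_ne_zero _ hx0))
          (pow_ne_zero _ hprod0), P.ord_mul hfk (zpow_ne_zero _ hx0), P.ord_pow, P.ord_zpow,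
          P.ord_pow, ord_prod' P Finset.univ _ fun l _ => htne l]
        push_cast
        ring
      have hord2 : P.ord ((∏ l, affine x l ^ a l) * βK i) = ∑ l, (a l : ℤ) * P.ord (affine x l) +
          P.ord (βK i) := by
        rw [P.ord_mul (Finset.prod_ne_zero_iff.2 fun l _ => pow_ne_zero _ (htne l)) hβ0,
          ord_prod' P Finset.univ _ fun l _ => pow_ne_zero _ (htne l)]
        congr 1
        exact Finset.sum_congr rfl fun l _ => P.ord_pow _ _
      rw [hord1, hord2] at hord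
      have hordl : ∀ l, (P.ord (affine x l) : ℚ) = (multiplicities x P l.succ : ℚ) -
          multiplicities x P 0 := by
        intro l
        rw [ord_aff hx0 hbas]
        push_cast
        ring
      have hord3 : ∑ l, (a l : ℚ) * P.ord (affine x l) + P.ord (βK i) ≤
          k * P.ord f - k * b * P.ord (x 0) + k * M0 * ∑ l, (P.ord (affine x l) : ℚ) + P.ord Q := by
        exact_mod_cast hord
      obtain ⟨e, he⟩ : ∃ e : Fin (d + 1) → ℚ,
        e = fun l => ((a l : ℚ) - k * M0) - k * m l.succ := ⟨_, rfl⟩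
      have hes : ∀ s : Fin (d + 2) → ℕ, e0 e s = ∑ l : Fin (d + 1), ((s l.succ : ℚ) - s 0) *
          ((a l : ℚ) - k * M0) - k * e0 (fun l => m l.succ) s := by
        intro s
        rw [he0, he]
        dsimp only
        rw [Finset.mul_sum, ← Finset.sum_sub_distrib]
        exact Finset.sum_congr rfl fun l _ => by ring
      have hB : ∀ s : T, (k : ℚ) * h s.1 - k * b * s.1 0 - c1 ≤ ∑ l : Fin (d + 1),
          ((s.1 l.succ : ℚ) - s.1 0) * ((a l : ℚ) - k * M0) := by
        intro s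
        have h1 := hRs i a ha s
        push_cast at h1
        exact h1
      have hσT : ∀ s ∈ σ, s ∈ T := fun s hs => by
        rw [hTd]
        exact Finset.mem_biUnion.2 ⟨σ, hσ, hs⟩
      have hlow : ∀ s ∈ σ, -(c1 : ℚ) ≤ e0 e s := by
        intro s hs
        have h1 := hB ⟨s, hσT s hs⟩
        dsimp only at h1
        rw [← hm2 s hs, hbs s] at h1
        rw [hes]
        linarith
      have hA : r * ∑ s ∈ σ, e0 e s ≤ |c2| := by
        have h1 : r * ∑ s ∈ σ, e0 e s = ∑ l, e l * (P.ord (affine x l) : ℚ) := by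
          rw [he0]
          dsimp only
          rw [Finset.sum_comm, Finset.mul_sum]
          refine Finset.sum_congr rfl fun l _ => ?_
          rw [hordl, hPvec, hPvec, ← Finset.sum_sub_distrib, Finset.mul_sum, Finset.mul_sum]
          exact Finset.sum_congr rfl fun s _ => by ring
        have h2 : ∑ l, e l * (P.ord (affine x l) : ℚ) = ∑ l, (a l : ℚ) * P.ord (affine x l) -
            k * M0 * ∑ l, (P.ord (affine x l) : ℚ) - k * ∑ l, m l.succ * P.ord (affine x l) := by
          rw [he, Finset.mul_sum, Finset.mul_sum, ← Finset.sum_sub_distrib,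
            ← Finset.sum_sub_distrib]
          exact Finset.sum_congr rfl fun l _ => by ring
        have h3 : ∑ l : Fin (d + 1), m l.succ * (P.ord (affine x l) : ℚ) =
            h (multiplicities x P) - b * multiplicities x P 0 := by
          have h4 : ∑ k, m k * (multiplicities x P k : ℚ) = h (multiplicities x P) := by
            rw [hhP, Finset.mul_sum]
            simp only [hPvec, Finset.mul_sum]
            rw [Finset.sum_comm]
            refine Finset.sum_congr rfl fun s hs => ?_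
            rw [← hm2 s hs, Finset.mul_sum]
            exact Finset.sum_congr rfl fun k _ => by ring
          have h5 := pair_affine (v := fun k => (multiplicities x P k : ℚ)) hm1
          rw [h4] at h5
          rw [h5]
          have h6 : ∀ l : Fin (d + 1), m l.succ * (P.ord (affine x l) : ℚ) =
              m l.succ * ((multiplicities x P l.succ : ℚ) - multiplicities x P 0) := fun l => by
            rw [hordl]
          rw [Finset.sum_congr rfl fun l _ => h6 l]
          ring
        have h7 : (P.ord f : ℚ) ≤ h (multiplicities x P) + b * minimalOrder x P := hfP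
        have h8 : (multiplicities x P 0 : ℚ) = P.ord (x 0) - minimalOrder x P := by
          exact_mod_cast vec_eq x P 0
        have h9 : (b : ℚ) * multiplicities x P 0 = b * (P.ord (x 0) - minimalOrder x P) := by
          rw [h8]
        have h10 : (k : ℚ) * (P.ord f - b * P.ord (x 0)) ≤ k * (h (multiplicities x P) -
            b * multiplicities x P 0) := by
          refine mul_le_mul_of_nonneg_left ?_ (by positivity)
          linarith
        have h11 := hc2 i
        rw [h1, h2, h3]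
        linarith
      have hup : ∀ s ∈ σ, e0 e s ≤ |c2| / r + (σ.card : ℚ) * c1 := by
        intro s hs
        have h1 : ∑ s ∈ σ, e0 e s ≤ |c2| / r := by
          rw [le_div_iff₀ hr]
          linarith
        have h2 : e0 e s - (σ.card : ℚ) * c1 ≤ ∑ s ∈ σ, e0 e s := by
          rw [← Finset.add_sum_erase σ _ hs]
          have h3 : -((σ.card : ℚ) * c1) ≤ ∑ s ∈ σ.erase s, e0 e s := by
            calc -((σ.card : ℚ) * c1) ≤ -(((σ.erase s).card : ℚ) * c1) := by
                  have h4 : ((σ.erase s).card : ℚ) ≤ σ.card := by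
                    exact_mod_cast Finset.card_le_card (Finset.erase_subset s σ)
                  have h5 : (0 : ℚ) ≤ c1 := by positivity
                  nlinarith
              _ = ∑ s ∈ σ.erase s, -(c1 : ℚ) := by
                  rw [Finset.sum_const, nsmul_eq_mul]
                  ring
              _ ≤ _ := Finset.sum_le_sum fun s' hs' => hlow s' (Finset.mem_of_mem_erase hs')
          linarith
        linarith
      have hc10 : (0 : ℚ) ≤ c1 := by positivity
      have habs : ∀ s ∈ σ, |e0 e s| ≤ c3 := by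
        intro s hs
        have h1 := hlow s hs
        have h2 := hup s hs
        have h3 : 0 ≤ |c2| / r := by positivity
        have h4 : (0 : ℚ) ≤ (σ.card : ℚ) * c1 := by positivity
        rw [abs_le, hc3]
        constructor <;> linarith
      have hs'4 : e0 e s'.1 ≤ c4 := by
        have h1 : e0 e s'.1 = ∑ s ∈ σ, ρ s * e0 e s := by
          rw [he0]
          dsimp only
          have h2 : ∀ l : Fin (d + 1), e l * ((s'.1 l.succ : ℚ) - s'.1 0) =
              ∑ s ∈ σ, ρ s * (e l * ((s l.succ : ℚ) - s 0)) := by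
            intro l
            rw [hρ l.succ, hρ 0]
            have h3 : t + ∑ s ∈ σ, ρ s * (s l.succ : ℚ) - (t + ∑ s ∈ σ, ρ s * (s 0 : ℚ)) =
                ∑ s ∈ σ, ρ s * ((s l.succ : ℚ) - s 0) := by
              rw [add_sub_add_left_eq_sub, ← Finset.sum_sub_distrib]
              exact Finset.sum_congr rfl fun s _ => by ring
            rw [h3, Finset.mul_sum]
            exact Finset.sum_congr rfl fun s _ => by ring
          rw [Finset.sum_congr rfl fun l _ => h2 l, Finset.sum_comm]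
          exact Finset.sum_congr rfl fun s _ => (Finset.mul_sum _ _ _).symm
        rw [h1, hc4]
        refine Finset.sum_le_sum fun s hs => ?_
        calc ρ s * e0 e s ≤ |ρ s * e0 e s| := le_abs_self _
          _ = |ρ s| * |e0 e s| := abs_mul _ _
          _ ≤ _ := mul_le_mul_of_nonneg_left (habs s hs) (abs_nonneg _)
      have h1 := hB s'
      rw [hbs]
      have h2 := hes s'.1
      linarith
    by_contra hcon
    push Not at hcon
    obtain ⟨k, hk⟩ := exists_nat_gt ((c1 + c4) / (h s'.1 - ∑ k, m k * (s'.1 k : ℚ)))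
    have h1 : 0 < h s'.1 - ∑ k, m k * (s'.1 k : ℚ) := by linarith
    rw [div_lt_iff₀ h1] at hk
    have h2 := key k
    linarith
  -- all vectors
  obtain ⟨w, hw, hwv, hwc⟩ := hfan.dec hu hv'
  rw [← hTd] at hwv hwc
  have h1 : h v' = ∑ s ∈ T, w s * h s := by
    rw [hh]
    simp only [hwc, Finset.mul_sum, ← Finset.sum_neg_distrib]
    rw [Finset.sum_comm]
    exact Finset.sum_congr rfl fun s _ => Finset.sum_congr rfl fun i _ => by ring
  have h2 : ∑ k, m k * (v' k : ℚ) = ∑ s ∈ T, w s * ∑ k, m k * (s k : ℚ) := by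
    simp only [hwv, Finset.mul_sum]
    rw [Finset.sum_comm]
    exact Finset.sum_congr rfl fun s _ => Finset.sum_congr rfl fun k _ => by ring
  rw [h1, h2]
  exact Finset.sum_le_sum fun s hs => mul_le_mul_of_nonneg_left (hray ⟨s, hs⟩) (hw s)

end Pool.Agent.U189.FV
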