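import Pool.Agent.U189.FV.Sec
import Pool.Agent.Q57.CX.Ring

/-!
# Finite covers of toric varieties: the ring of sections of the pullbacks of toric divisors

Let `Y` be a normal projective variety with function field `K` and `x 0, ..., x n` sections of an ample
line bundle on `Y`, `n = dim Y`, without common zeros, so that they define a finite morphism from `Y` to
the projective `n`-space. A subdivision of the fan of the projective space gives a toric modification of
the projective space; `X` is the normalization of its fibre product with `Y`: a modification of `Y` with a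
finite morphism to the toric variety. `fan` is the set of the cones: the lattice points of the fan of the
projective space are the vectors of `n + 1` natural numbers with some coordinate `0`.
-/

set_option autoImplicit false
set_option linter.overlappingInstances false
set_option linter.unusedSectionVars false
set_option maxHeartbeats 1000000

open FF MvPolynomial Pool.Agent.W603.LV Pool.Agent.W602.GT Pool.Agent.W602.Cov
open Pool.Agent.Q57.GM Pool.Agent.Q57.FT Pool.Agent.Q57.CX

namespace Pool.Agent.U189.FV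

open Pool.Agent.U189.ND (affine minimalOrder InCone)

/-- `fan` is a finite set of cones, each generated by a finite set of nonzero vectors with a coordinate
`0`, which cover all vectors with a coordinate `0`. -/
structure IsFan {n : ℕ} (fan : Finset (Finset (Fin (n + 1) → ℕ))) : Prop where
  gen : ∀ σ ∈ fan, ∀ s ∈ σ, s ≠ 0 ∧ ∃ k, s k = 0
  cover : ∀ v : Fin (n + 1) → ℕ, (∃ k, v k = 0) → ∃ σ ∈ fan, InCone σ v

variable {n p : ℕ} {fan : Finset (Finset (Fin (n + 1) → ℕ))}
  {c : Fin p → (Fin (n + 1) → ℕ) → ℚ} {u : Finset (Fin (n + 1) → ℕ) → Fin p → Fin (n + 1) → ℚ}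

/-- the functions are linear on the cones -/
def Lin (fan : Finset (Finset (Fin (n + 1) → ℕ))) (c : Fin p → (Fin (n + 1) → ℕ) → ℚ)
    (u : Finset (Fin (n + 1) → ℕ) → Fin p → Fin (n + 1) → ℚ) : Prop :=
  ∀ σ ∈ fan, ∀ i v, (∃ k, v k = 0) → InCone σ v → c i v = ∑ k, u σ i k * v k

theorem inCone_smul {σ : Finset (Fin (n + 1) → ℕ)} {s v : Fin (n + 1) → ℕ} (hs : s ∈ σ) {r : ℚ}
    (hr : 0 ≤ r) (hv : ∀ k, (v k : ℚ) = r * s k) : InCone σ v := by
  classical
  refine ⟨fun t => if t = s then r else 0, fun t => ?_, fun k => ?_⟩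
  · dsimp only
    split_ifs
    · exact hr
    · exact le_rfl
  · dsimp only
    rw [Finset.sum_eq_single s]
    · rw [if_pos rfl, hv k]
    · intro t _ ht
      rw [if_neg ht, zero_mul]
    · intro h
      exact absurd hs h

/-- the functions are homogeneous on the rays -/
theorem Lin.ray (hu : Lin fan c u) {σ : Finset (Fin (n + 1) → ℕ)} (hσ : σ ∈ fan)
    {s v : Fin (n + 1) → ℕ} (hs : s ∈ σ) (hs0 : ∃ k, s k = 0) {r : ℚ} (hr : 0 ≤ r)
    (hv : ∀ k, (v k : ℚ) = r * s k) (i : Fin p) : c i v = r * c i s := by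
  have h1 : ∃ k, v k = 0 := by
    obtain ⟨k, hk⟩ := hs0
    refine ⟨k, ?_⟩
    have h2 := hv k
    rw [hk] at h2
    simpa using h2
  rw [hu σ hσ i v h1 (inCone_smul hs hr hv), hu σ hσ i s hs0
    (inCone_smul hs zero_le_one fun k => (one_mul _).symm), Finset.mul_sum]
  exact Finset.sum_congr rfl fun k _ => by rw [hv k]; ring

/-- all vectors are combinations of the generators, and the functions are additive on them -/
theorem IsFan.dec (hf : IsFan fan) (hu : Lin fan c u) {v : Fin (n + 1) → ℕ} (hv : ∃ k, v k = 0) :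
    ∃ w : (Fin (n + 1) → ℕ) → ℚ, (∀ s, 0 ≤ w s) ∧
      (∀ k, (v k : ℚ) = ∑ s ∈ fan.biUnion id, w s * s k) ∧
      ∀ i, c i v = ∑ s ∈ fan.biUnion id, w s * c i s := by
  classical
  obtain ⟨σ, hσ, hc⟩ := hf.cover v hv
  obtain ⟨w, hw, hwv⟩ := id hc
  have hsub : σ ⊆ fan.biUnion id := fun s hs => Finset.mem_biUnion.2 ⟨σ, hσ, hs⟩
  have hred : ∀ g : (Fin (n + 1) → ℕ) → ℚ, ∑ s ∈ fan.biUnion id, (if s ∈ σ then w s else 0) * g s =
      ∑ s ∈ σ, w s * g s := by
    intro g
    rw [← Finset.sum_subset hsub (fun s _ hs => by rw [if_neg hs, zero_mul])]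
    exact Finset.sum_congr rfl fun s hs => by rw [if_pos hs]
  refine ⟨fun s => if s ∈ σ then w s else 0, fun s => ?_, fun k => ?_, fun i => ?_⟩
  · dsimp only
    split_ifs
    · exact hw s
    · exact le_rfl
  · rw [hred fun s => (s k : ℚ)]
    exact hwv k
  · rw [hred fun s => c i s, hu σ hσ i v hv hc]
    have h1 : ∀ s ∈ σ, w s * c i s = ∑ k, w s * (u σ i k * s k) := by
      intro s hs
      rw [hu σ hσ i s (hf.gen σ hσ s hs).2
        (inCone_smul hs zero_le_one fun k => (one_mul _).symm), Finset.mul_sum]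
    rw [Finset.sum_congr rfl h1, Finset.sum_comm]
    refine Finset.sum_congr rfl fun k _ => ?_
    rw [hwv k, Finset.mul_sum]
    exact Finset.sum_congr rfl fun s _ => by ring

/-- the functions are bounded by multiples of the sum of the coordinates -/
theorem IsFan.bdd (hf : IsFan fan) (hu : Lin fan c u) : ∃ C0 : ℕ, ∀ i v, (∃ k, v k = 0) →
    |c i v| ≤ C0 * ∑ k, (v k : ℚ) := by
  classical
  obtain ⟨C0, hC0⟩ : ∃ C0 : ℕ, (∑ i, ∑ s ∈ fan.biUnion id, |c i s|) ≤ C0 := exists_nat_ge _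
  refine ⟨C0, fun i v hv => ?_⟩
  obtain ⟨w, hw, hwv, hwc⟩ := hf.dec hu hv
  have h1 : ∀ s ∈ fan.biUnion id, |c i s| ≤ C0 := by
    intro s hs
    have h2 : |c i s| ≤ ∑ s ∈ fan.biUnion id, |c i s| :=
      Finset.single_le_sum (f := fun s => |c i s|) (fun _ _ => abs_nonneg _) hs
    have h3 : ∑ s ∈ fan.biUnion id, |c i s| ≤ ∑ i, ∑ s ∈ fan.biUnion id, |c i s| :=
      Finset.single_le_sum (f := fun i => ∑ s ∈ fan.biUnion id, |c i s|)
        (fun _ _ => Finset.sum_nonneg fun _ _ => abs_nonneg _) (Finset.mem_univ i)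
    linarith
  have h2 : ∀ s ∈ fan.biUnion id, (1 : ℚ) ≤ ∑ k, (s k : ℚ) := by
    intro s hs
    obtain ⟨σ, hσ, hsσ⟩ := Finset.mem_biUnion.1 hs
    obtain ⟨k, hk⟩ := Function.ne_iff.1 (hf.gen σ hσ s hsσ).1
    have h3 : (1 : ℚ) ≤ s k := by
      have : 1 ≤ s k := Nat.one_le_iff_ne_zero.2 hk
      exact_mod_cast this
    exact h3.trans (Finset.single_le_sum (f := fun k => (s k : ℚ)) (fun _ _ => by positivity)
      (Finset.mem_univ k))
  rw [hwc i]
  calc |∑ s ∈ fan.biUnion id, w s * c i s| ≤ ∑ s ∈ fan.biUnion id, |w s * c i s| :=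
        Finset.abs_sum_le_sum_abs _ _
    _ ≤ ∑ s ∈ fan.biUnion id, w s * (C0 * ∑ k, (s k : ℚ)) := by
        refine Finset.sum_le_sum fun s hs => ?_
        rw [abs_mul, abs_of_nonneg (hw s)]
        refine mul_le_mul_of_nonneg_left ?_ (hw s)
        have h3 := h1 s hs
        have h4 := h2 s hs
        have h5 : (0 : ℚ) ≤ C0 := by positivity
        nlinarith
    _ = C0 * ∑ k, (v k : ℚ) := by
        simp only [hwv, Finset.mul_sum]
        rw [Finset.sum_comm]
        exact Finset.sum_congr rfl fun s _ => Finset.sum_congr rfl fun k _ => by ring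

/-- the constraints for the exponents -/
def consF {d : ℕ} (T : Finset (Fin (d + 2) → ℕ)) (L : ℤ) (β : Fin p → ℤ) (q : Fin p → T → ℤ) :
    ((Fin (p + p) → ℤ) × (Fin (d + 1) → ℤ)) →+ ((T ⊕ Fin (p + p)) → ℤ) :=
  AddMonoidHom.mk' (fun γ => Sum.elim
    (fun s => L * ((∑ i, dif p γ.1 i * β i) * s.1 0 +
      ∑ l : Fin (d + 1), ((s.1 l.succ : ℤ) - s.1 0) * γ.2 l) + ∑ i, q i s * dif p γ.1 i)
    (fun i => γ.1 i)) (by
    intro a b
    funext s
    rcases s with s | i
    · simp only [Sum.elim_inl, Pi.add_apply, Prod.fst_add, Prod.snd_add, map_add, mul_add, add_mul,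
        Finset.sum_add_distrib]
      ring
    · simp only [Sum.elim_inr, Pi.add_apply, Prod.fst_add])

theorem consF_vec {d : ℕ} {T : Finset (Fin (d + 2) → ℕ)} {L : ℤ} {β : Fin p → ℤ}
    {q : Fin p → T → ℤ} (γ : (Fin (p + p) → ℤ) × (Fin (d + 1) → ℤ)) (s : T) :
    consF T L β q γ (Sum.inl s) = L * ((∑ i, dif p γ.1 i * β i) * s.1 0 +
      ∑ l : Fin (d + 1), ((s.1 l.succ : ℤ) - s.1 0) * γ.2 l) + ∑ i, q i s * dif p γ.1 i := rfl

theorem consF_m {d : ℕ} {T : Finset (Fin (d + 2) → ℕ)} {L : ℤ} {β : Fin p → ℤ}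
    {q : Fin p → T → ℤ} (γ : (Fin (p + p) → ℤ) × (Fin (d + 1) → ℤ)) (i : Fin (p + p)) :
    consF T L β q γ (Sum.inr i) = γ.1 i := rfl

section main

variable {d : ℕ} {K : Type} [Field K] [Algebra ℂ K] {x : Fin (d + 2) → K}

/-- **The ring of all sections of all combinations of the divisors is finitely generated.** -/
theorem cox_fin (hx0 : x 0 ≠ 0) (hbas : IsTranscendenceBasis ℂ (affine x))
    (hfd : FiniteDimensional (IntermediateField.adjoin ℂ (Set.range (affine x))) K)
    {fan : Finset (Finset (Fin (d + 2) → ℕ))} (hfan : IsFan fan)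
    {c : Fin p → (Fin (d + 2) → ℕ) → ℚ} {u : Finset (Fin (d + 2) → ℕ) → Fin p → Fin (d + 2) → ℚ}
    (hu : Lin fan c u) (β : Fin p → ℤ) {δ : Fin p → Place ℂ K → ℚ}
    (hδ : ∀ i P, δ i P = c i (multiplicities x P) - (β i : ℚ) * minimalOrder x P) :
    (coxRing (d + 1) δ).FG := by
  classical
  obtain ⟨T, hTd⟩ : ∃ T : Finset (Fin (d + 2) → ℕ), T = fan.biUnion id := ⟨_, rfl⟩
  have hTs : ∀ s : T, s.1 ≠ 0 ∧ ∃ k, s.1 k = 0 := by
    intro s
    have h1 : s.1 ∈ fan.biUnion id := hTd ▸ s.2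
    obtain ⟨σ, hσ, hsσ⟩ := Finset.mem_biUnion.1 h1
    exact hfan.gen σ hσ s.1 hsσ
  obtain ⟨L, hL, hden⟩ := Pool.Agent.Y169.TH.exists_den fun s : Fin p × T => c s.1 s.2.1
  choose q' hq' using hden
  obtain ⟨q, hq⟩ : ∃ q : Fin p → T → ℤ, q = fun i s => q' (i, s) := ⟨_, rfl⟩
  have hqs : ∀ i (s : T), (L : ℚ) * c i s.1 = q i s := fun i s => by
    rw [hq]
    exact hq' (i, s)
  have hLq : (0 : ℚ) < L := by exact_mod_cast hL
  obtain ⟨C0, hC0⟩ := hfan.bdd hu
  obtain ⟨N0, βK, Q, c1, hQ, hstr⟩ := sec_str hx0 hbas hfd (fun s : T => s.1) hTs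
  have htne : ∀ l, affine x l ≠ 0 := fun l => hbas.1.ne_zero l
  obtain ⟨mon, hmon⟩ : ∃ mon : (Fin (p + p) → ℤ) × (Fin (d + 1) → ℤ) →
      AddMonoidAlgebra K (Fin p → ℤ), mon = fun γ => AddMonoidAlgebra.single (dif p γ.1)
        (x 0 ^ (∑ i, dif p γ.1 i * β i) * ∏ l, affine x l ^ γ.2 l) := ⟨_, rfl⟩
  obtain ⟨cs, hcs⟩ : ∃ cs : T ⊕ Fin (p + p) → ℤ,
    cs = Sum.elim (fun _ => (L : ℤ) * c1) (fun _ => 0) := ⟨_, rfl⟩
  -- the constraints determine the exponents
  have hinj : Function.Injective (consF T L β q) := by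
    rw [injective_iff_map_eq_zero]
    intro γ hγ
    have h1 : γ.1 = 0 := by
      funext i
      exact congrFun hγ (Sum.inr i)
    refine Prod.ext h1 ?_
    have h2 : ∀ s : T, ∑ l : Fin (d + 1), ((s.1 l.succ : ℤ) - s.1 0) * γ.2 l = 0 := by
      intro s
      have h3 := congrFun hγ (Sum.inl s)
      rw [consF_vec, h1, map_zero] at h3
      simp only [Pi.zero_apply, zero_mul, mul_zero, Finset.sum_const_zero, zero_add,
        add_zero] at h3
      exact (mul_eq_zero.1 h3).resolve_left (by exact_mod_cast hL.ne')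
    funext l
    obtain ⟨w, hw, hwv, -⟩ := hfan.dec hu (v := Pi.single l.succ 1) ⟨0, by
      rw [Pi.single_eq_of_ne (Fin.succ_ne_zero l).symm]⟩
    rw [← hTd] at hwv
    have h4 : ∑ l' : Fin (d + 1), (((Pi.single l.succ 1 : Fin (d + 2) → ℕ) l'.succ : ℚ) -
        (Pi.single l.succ 1 : Fin (d + 2) → ℕ) 0) * γ.2 l' = 0 := by
      simp only [hwv]
      have h5 : ∀ l' : Fin (d + 1), (∑ s ∈ T, w s * (s l'.succ : ℚ) - ∑ s ∈ T, w s * (s 0 : ℚ)) *
          γ.2 l' = ∑ s ∈ T, w s * (((s l'.succ : ℚ) - s 0) * γ.2 l') := by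
        intro l'
        rw [← Finset.sum_sub_distrib, Finset.sum_mul]
        exact Finset.sum_congr rfl fun s _ => by ring
      rw [Finset.sum_congr rfl fun l' _ => h5 l', Finset.sum_comm]
      refine Finset.sum_eq_zero fun s hs => ?_
      rw [← Finset.mul_sum]
      have h6 := h2 ⟨s, hs⟩
      have h7 : ∑ l' : Fin (d + 1), ((s l'.succ : ℚ) - s 0) * γ.2 l' = 0 := by exact_mod_cast h6
      rw [h7, mul_zero]
    rw [Finset.sum_eq_single l] at h4
    · rw [Pi.single_eq_same, Pi.single_eq_of_ne (Fin.succ_ne_zero l).symm] at h4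
      push_cast at h4
      simpa using h4
    · intro l' _ hl'
      rw [Pi.single_eq_of_ne (fun h => hl' (Fin.succ_injective _ h)),
        Pi.single_eq_of_ne (Fin.succ_ne_zero l).symm]
      simp
    · intro h
      exact absurd (Finset.mem_univ l) h
  have hδs : ∀ (μ : Fin p → ℤ) (P : Place ℂ K), ∑ i, (μ i : ℚ) * δ i P =
      ∑ i, (μ i : ℚ) * c i (multiplicities x P) - ((∑ i, μ i * β i : ℤ) : ℚ) * minimalOrder x P := by
    intro μ P
    push_cast
    rw [Finset.sum_mul, ← Finset.sum_sub_distrib]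
    exact Finset.sum_congr rfl fun i _ => by rw [hδ]; ring
  refine fg_lat (consF T L β q) hinj mon ?_ (fun γ γ' => ?_)
    (fun i : Fin N0 => AddMonoidAlgebra.single 0 (βK i / Q)) cs (coxRing (d + 1) δ)
    (fun γ hγ => ?_) fun w hw => ?_
  · rw [hmon]
    simp only [Prod.fst_zero, Prod.snd_zero, map_zero, Pi.zero_apply, zero_mul,
      Finset.sum_const_zero, zpow_zero, Finset.prod_const_one, mul_one]
    rfl
  · rw [hmon]
    beta_reduce
    rw [AddMonoidAlgebra.single_mul_single, Prod.fst_add, map_add]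
    congr 1
    have h1 : ∑ i, (dif p γ.1 + dif p γ'.1) i * β i = ∑ i, dif p γ.1 i * β i +
        ∑ i, dif p γ'.1 i * β i := by
      simp only [Pi.add_apply, add_mul, Finset.sum_add_distrib]
    have h2 : ∏ l, affine x l ^ (γ + γ').2 l = (∏ l, affine x l ^ γ.2 l) *
        ∏ l, affine x l ^ γ'.2 l := by
      rw [← Finset.prod_mul_distrib]
      exact Finset.prod_congr rfl fun l _ => zpow_add₀ (htne l) _ _
    rw [h1, h2, zpow_add₀ hx0]
    ring
  · -- the monomials in the cone are sections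
    rw [hmon]
    refine single_mem fun P _ => ?_
    right
    obtain ⟨μ, hμ⟩ : ∃ μ, μ = dif p γ.1 := ⟨_, rfl⟩
    obtain ⟨b, hb⟩ : ∃ b, b = ∑ i, μ i * β i := ⟨_, rfl⟩
    rw [← hμ, ← hb, hδs, ← hb, P.ord_mul (zpow_ne_zero _ hx0)
      (Finset.prod_ne_zero_iff.2 fun l _ => zpow_ne_zero _ (htne l)), P.ord_zpow,
      ord_prod' P Finset.univ _ fun l _ => zpow_ne_zero _ (htne l)]
    have h1 : ∀ l, P.ord (affine x l ^ γ.2 l) = γ.2 l * ((multiplicities x P l.succ : ℤ) - multiplicities x P 0) := by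
      intro l
      rw [P.ord_zpow, ord_aff hx0 hbas]
    rw [Finset.sum_congr rfl fun l _ => h1 l]
    obtain ⟨w, hw, hwv, hwc⟩ := hfan.dec hu (vec_zero x P)
    rw [← hTd] at hwv hwc
    have h2 : ∀ s ∈ T, - ∑ i, (μ i : ℚ) * c i s ≤ b * s 0 +
        ∑ l : Fin (d + 1), ((s l.succ : ℚ) - s 0) * γ.2 l := by
      intro s hs
      have h3 := hγ (Sum.inl ⟨s, hs⟩)
      rw [consF_vec, ← hμ, ← hb] at h3
      have h4 : (0 : ℚ) ≤ ((L * (b * s 0 + ∑ l : Fin (d + 1), ((s l.succ : ℤ) - s 0) * γ.2 l) +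
          ∑ i, q i ⟨s, hs⟩ * μ i : ℤ) : ℚ) := by exact_mod_cast h3
      push_cast at h4
      have h5 : ∑ i, (q i ⟨s, hs⟩ : ℚ) * μ i = L * ∑ i, (μ i : ℚ) * c i s := by
        rw [Finset.mul_sum]
        refine Finset.sum_congr rfl fun i _ => ?_
        rw [← hqs i ⟨s, hs⟩]
        ring
      rw [h5, ← mul_add] at h4
      have h6 := nonneg_of_mul_nonneg_right h4 hLq
      linarith
    have h3 : (multiplicities x P 0 : ℚ) = P.ord (x 0) - minimalOrder x P := by
      exact_mod_cast vec_eq x P 0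
    have h4 : - ∑ i, (μ i : ℚ) * c i (multiplicities x P) ≤ b * multiplicities x P 0 +
        ∑ l : Fin (d + 1), ((multiplicities x P l.succ : ℚ) - multiplicities x P 0) * γ.2 l := by
      have h5 : - ∑ i, (μ i : ℚ) * c i (multiplicities x P) = ∑ s ∈ T, w s * (- ∑ i, (μ i : ℚ) * c i s) := by
        simp only [hwc, Finset.mul_sum, ← Finset.sum_neg_distrib]
        rw [Finset.sum_comm]
        exact Finset.sum_congr rfl fun s _ => Finset.sum_congr rfl fun i _ => by ring
      have h6 : b * (multiplicities x P 0 : ℚ) +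
          ∑ l : Fin (d + 1), ((multiplicities x P l.succ : ℚ) - multiplicities x P 0) * γ.2 l =
          ∑ s ∈ T, w s * (b * s 0 + ∑ l : Fin (d + 1), ((s l.succ : ℚ) - s 0) * γ.2 l) := by
        simp only [hwv]
        simp only [mul_add, Finset.sum_add_distrib, Finset.mul_sum]
        congr 1
        · exact Finset.sum_congr rfl fun s _ => by ring
        · rw [Finset.sum_comm]
          refine Finset.sum_congr rfl fun l _ => ?_
          rw [← Finset.sum_sub_distrib, Finset.sum_mul]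
          exact Finset.sum_congr rfl fun s _ => by ring
      rw [h5, h6]
      exact Finset.sum_le_sum fun s hs => mul_le_mul_of_nonneg_left (h2 s hs) (hw s)
    have h5 : ∑ l : Fin (d + 1), ((multiplicities x P l.succ : ℚ) - multiplicities x P 0) * γ.2 l =
        ((∑ l, γ.2 l * ((multiplicities x P l.succ : ℤ) - multiplicities x P 0) : ℤ) : ℚ) := by
      push_cast
      exact Finset.sum_congr rfl fun l _ => by ring
    rw [h5] at h4
    have h6 : (b : ℚ) * multiplicities x P 0 = b * (P.ord (x 0) - minimalOrder x P) := by rw [h3]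
    rw [Int.cast_add, Int.cast_mul]
    linarith
  · -- the sections are spanned by monomials
    have hw' : ∀ μ, ZSec (d + 1) δ μ (w.coeff μ) := hw
    have hw1 : w = ∑ μ ∈ w.coeff.support, AddMonoidAlgebra.single μ (w.coeff μ) := by
      apply AddMonoidAlgebra.coeff_injective
      rw [AddMonoidAlgebra.coeff_sum]
      simp only [AddMonoidAlgebra.coeff_single]
      exact (Finsupp.sum_single w.coeff).symm
    rw [hw1]
    refine Submodule.sum_mem _ fun μ _ => ?_
    obtain ⟨f, hf⟩ : ∃ f, f = w.coeff μ := ⟨_, rfl⟩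
    have hfs := hw' μ
    rw [← hf] at hfs ⊢
    obtain ⟨b, hb⟩ : ∃ b, b = ∑ i, μ i * β i := ⟨_, rfl⟩
    obtain ⟨μ2, hμ2⟩ : ∃ μ2 : Fin (p + p) → ℤ,
      μ2 = Fin.append (fun i => ((μ i).toNat : ℤ)) fun i => ((- μ i).toNat : ℤ) := ⟨_, rfl⟩
    have hd : dif p μ2 = μ := by
      funext i
      rw [dif_apply, hμ2, Fin.append_left, Fin.append_right]
      exact Int.toNat_sub_toNat_neg _
    have hμ2n : ∀ i, 0 ≤ μ2 i := by
      intro i
      rw [hμ2]
      refine Fin.addCases (fun i => ?_) (fun i => ?_) i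
      · rw [Fin.append_left]
        positivity
      · rw [Fin.append_right]
        positivity
    obtain ⟨M, hM⟩ : ∃ M : ℕ, (∑ i, |(μ i : ℚ)| * C0) ≤ M := exists_nat_ge _
    obtain ⟨R, hR, hRs⟩ := hstr (fun v => - ∑ i, (μ i : ℚ) * c i v) b M f
      (fun s r v hr hv => by
        have h1 : s.1 ∈ fan.biUnion id := hTd ▸ s.2
        obtain ⟨σ, hσ, hsσ⟩ := Finset.mem_biUnion.1 h1
        skip
        rw [mul_neg, Finset.mul_sum]
        congr 1
        refine Finset.sum_congr rfl fun i _ => ?_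
        rw [hu.ray hσ hsσ (hTs s).2 hr hv i]
        ring)
      (fun v hv => by
        have h1 : |∑ i, (μ i : ℚ) * c i v| ≤ M * ∑ k, (v k : ℚ) := by
          have h2 : (0 : ℚ) ≤ ∑ k, (v k : ℚ) := Finset.sum_nonneg fun _ _ => by positivity
          calc |∑ i, (μ i : ℚ) * c i v| ≤ ∑ i, |(μ i : ℚ) * c i v| :=
                Finset.abs_sum_le_sum_abs _ _
            _ ≤ ∑ i, |(μ i : ℚ)| * C0 * ∑ k, (v k : ℚ) := by
                refine Finset.sum_le_sum fun i _ => ?_
                rw [abs_mul, mul_assoc]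
                exact mul_le_mul_of_nonneg_left (hC0 i v hv) (abs_nonneg _)
            _ = (∑ i, |(μ i : ℚ)| * C0) * ∑ k, (v k : ℚ) := by rw [Finset.sum_mul]
            _ ≤ _ := mul_le_mul_of_nonneg_right hM h2
        have h3 := le_abs_self (∑ i, (μ i : ℚ) * c i v)
        skip
        linarith)
      (fun P hP => (hfs P hP).imp id fun h1 => by
        rw [hδs, ← hb] at h1
        linarith)
    have hprod0 : (∏ l, affine x l) ≠ 0 := Finset.prod_ne_zero_iff.2 fun l _ => htne l
    have hf2 : f = ∑ i, ∑ a ∈ (R i).support, coeff a (R i) •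
        ((x 0 ^ b * ∏ l, affine x l ^ ((a l : ℤ) - M)) * (βK i / Q)) := by
      have h1 : f = (∑ i, aeval (affine x) (R i) * βK i) * (x 0 ^ b *
          ((∏ l, affine x l) ^ M)⁻¹ * Q⁻¹) := by
        rw [← hR]
        have h2 : x 0 ^ (-b) * x 0 ^ b = 1 := by
          rw [← zpow_add₀ hx0, neg_add_cancel, zpow_zero]
        have h3 : ((∏ l, affine x l) ^ M) ≠ 0 := pow_ne_zero _ hprod0
        calc f = f * 1 * 1 * 1 := by ring
          _ = f * (x 0 ^ (-b) * x 0 ^ b) * ((∏ l, affine x l) ^ M * ((∏ l, affine x l) ^ M)⁻¹) *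
              (Q * Q⁻¹) := by rw [h2, mul_inv_cancel₀ h3, mul_inv_cancel₀ hQ]
          _ = _ := by ring
      conv_lhs => rw [h1]
      rw [Finset.sum_mul]
      refine Finset.sum_congr rfl fun i _ => ?_
      have h3 : aeval (affine x) (R i) = ∑ a ∈ (R i).support, algebraMap ℂ K (coeff a (R i)) *
          ∏ l, affine x l ^ a l := by
        conv_lhs => rw [(R i).as_sum, map_sum]
        refine Finset.sum_congr rfl fun a _ => ?_
        rw [aeval_monomial, Finsupp.prod_fintype _ _ fun i => pow_zero _]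
      rw [h3, Finset.sum_mul, Finset.sum_mul]
      refine Finset.sum_congr rfl fun a _ => ?_
      have h4 : ∏ l, affine x l ^ ((a l : ℤ) - M) = (∏ l, affine x l ^ a l) *
          ((∏ l, affine x l) ^ M)⁻¹ := by
        rw [← Finset.prod_pow, ← Finset.prod_inv_distrib, ← Finset.prod_mul_distrib]
        refine Finset.prod_congr rfl fun l _ => ?_
        rw [zpow_sub₀ (htne l), zpow_natCast, zpow_natCast, div_eq_mul_inv]
      rw [Algebra.smul_def, h4]
      ring
    have hsum : (AddMonoidAlgebra.single μ f : AddMonoidAlgebra K (Fin p → ℤ)) =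
        ∑ i, ∑ a ∈ (R i).support, coeff a (R i) •
          (mon (μ2, fun l => (a l : ℤ) - M) * AddMonoidAlgebra.single 0 (βK i / Q)) := by
      conv_lhs => rw [hf2]
      rw [← AddMonoidAlgebra.singleAddHom_apply, map_sum]
      refine Finset.sum_congr rfl fun i _ => ?_
      rw [map_sum]
      refine Finset.sum_congr rfl fun a _ => ?_
      rw [AddMonoidAlgebra.singleAddHom_apply, hmon]
      beta_reduce
      rw [AddMonoidAlgebra.single_mul_single, add_zero, AddMonoidAlgebra.smul_single, hd, ← hb]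
    rw [hsum]
    refine Submodule.sum_mem _ fun i _ => Submodule.sum_mem _ fun a ha =>
      Submodule.smul_mem _ _ (Submodule.subset_span ⟨_, i, fun s => ?_, rfl⟩)
    rcases s with s | i'
    · rw [consF_vec, hcs, Sum.elim_inl]
      dsimp only
      rw [hd, ← hb]
      have h1 := hRs i a ha s
      skip
      have h2 := mul_le_mul_of_nonneg_left h1 hLq.le
      have h4 : ((∑ i, q i s * μ i : ℤ) : ℚ) = L * ∑ i, (μ i : ℚ) * c i s.1 := by
        push_cast
        rw [Finset.mul_sum]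
        refine Finset.sum_congr rfl fun i _ => ?_
        rw [← hqs i s]
        ring
      have h3 : (((- ((L : ℤ) * c1) : ℤ)) : ℚ) ≤
          ((L * (b * s.1 0 + ∑ l : Fin (d + 1), ((s.1 l.succ : ℤ) - s.1 0) * ((a l : ℤ) - M)) +
            ∑ i, q i s * μ i : ℤ) : ℚ) := by
        rw [Int.cast_add, h4, Int.cast_mul, Int.cast_add]
        rw [Int.cast_neg, Int.cast_mul, Int.cast_mul]
        simp only [Int.cast_natCast] at h2 ⊢
        linarith
      exact Int.cast_le.1 h3
    · rw [consF_m, hcs, Sum.elim_inr, neg_zero]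
      exact hμ2n i'

end main

end Pool.Agent.U189.FV
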