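import Pool.Agent.U189.FV.Str
import Pool.Agent.U189.MG.Abs
import Pool.Agent.Q57.FT.Sec

/-!
The structure of the sections of the pullbacks of toric divisors to finite covers of toric varieties.
-/

set_option autoImplicit false
set_option linter.overlappingInstances false
set_option linter.unusedSectionVars false
set_option maxHeartbeats 1000000

open FF MvPolynomial IntermediateField Pool.Agent.W603.LV Pool.Agent.W619.PQ
open Pool.Agent.W619.TW Pool.Agent.W602.GT Pool.Agent.TH122.AB Pool.Agent.TH756.PN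
open Pool.Agent.Y169.CH Pool.Agent.W602.Cov.G Pool.Agent.Y169.TH Pool.Agent.Q57.TP
open Pool.Agent.Q57.GM Pool.Agent.Q57.FG Pool.Agent.Q57.FT

namespace Pool.Agent.U189.FV

open Pool.Agent.U189.ND (affine minimalOrder InCone)

variable {d : ℕ} {K : Type} [Field K] [Algebra ℂ K] {x : Fin (d + 2) → K}

/-- the multiplicities of the divisors of the sections `x k` along `P` -/
noncomputable def multiplicities {n : ℕ} (x : Fin (n + 1) → K) (P : Place ℂ K) (k : Fin (n + 1)) : ℕ :=
  (P.ord (x k) - minimalOrder x P).toNat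

theorem mo_le {n : ℕ} (x : Fin (n + 1) → K) (P : Place ℂ K) (j : Fin (n + 1)) :
    minimalOrder x P ≤ P.ord (x j) := Finset.inf'_le _ (Finset.mem_univ j)

theorem vec_eq {n : ℕ} (x : Fin (n + 1) → K) (P : Place ℂ K) (k : Fin (n + 1)) :
    (multiplicities x P k : ℤ) = P.ord (x k) - minimalOrder x P :=
  Int.toNat_of_nonneg (sub_nonneg.2 (mo_le x P k))

theorem vec_zero {n : ℕ} (x : Fin (n + 1) → K) (P : Place ℂ K) : ∃ k, multiplicities x P k = 0 := by
  obtain ⟨k, _, hk⟩ := Finset.exists_mem_eq_inf' (Finset.univ_nonempty (α := Fin (n + 1)))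
    fun j => P.ord (x j)
  refine ⟨k, ?_⟩
  have h1 : minimalOrder x P = P.ord (x k) := hk
  have h2 := vec_eq x P k
  omega

theorem x_ne {n : ℕ} {x : Fin (n + 1) → K} (hx0 : x 0 ≠ 0)
    (hbas : IsTranscendenceBasis ℂ (affine x)) (k : Fin (n + 1)) : x k ≠ 0 := by
  refine Fin.cases hx0 (fun b => ?_) k
  intro h
  have h1 := hbas.1.ne_zero b
  apply h1
  unfold affine
  rw [h, zero_div]

theorem ord_aff {n : ℕ} {x : Fin (n + 1) → K} (hx0 : x 0 ≠ 0)
    (hbas : IsTranscendenceBasis ℂ (affine x)) (P : Place ℂ K) (b : Fin n) :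
    P.ord (affine x b) = multiplicities x P b.succ - multiplicities x P 0 := by
  unfold affine
  rw [P.ord_div (x_ne hx0 hbas _) hx0, vec_eq, vec_eq]
  ring

/-- **The structure of the sections.** -/
theorem sec_str (hx0 : x 0 ≠ 0) (hbas : IsTranscendenceBasis ℂ (affine x))
    (hfd : FiniteDimensional (IntermediateField.adjoin ℂ (Set.range (affine x))) K)
    {ι : Type} [Fintype ι] (T : ι → Fin (d + 2) → ℕ) (hT : ∀ s, T s ≠ 0 ∧ ∃ k, T s k = 0) :
    ∃ (N0 : ℕ) (β : Fin N0 → K) (Q : K) (c1 : ℕ), Q ≠ 0 ∧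
      ∀ (h : (Fin (d + 2) → ℕ) → ℚ) (b : ℤ) (M : ℕ) (f : K),
      (∀ s (r : ℚ) v, 0 ≤ r → (∀ k, (v k : ℚ) = r * T s k) → h v = r * h (T s)) →
      (∀ v, (∃ k, v k = 0) → -(M * ∑ k, (v k : ℚ)) ≤ h v) →
      (∀ P, Divisorial (d + 1) P → f = 0 ∨ h (multiplicities x P) + b * minimalOrder x P ≤ P.ord f) →
      ∃ R : Fin N0 → MvPolynomial (Fin (d + 1)) ℂ,
        f * x 0 ^ (-b) * (∏ l, affine x l) ^ M * Q = ∑ i, aeval (affine x) (R i) * β i ∧
        ∀ i, ∀ a ∈ (R i).support, ∀ s, h (T s) - b * T s 0 - c1 ≤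
          ((∑ l : Fin (d + 1), ((T s l.succ : ℤ) - T s 0) * ((a l : ℤ) - M) : ℤ) : ℚ) := by
  classical
  obtain ⟨K', iF, iA, iK, hT', G, fG, a1, a2, a3, a4, X, hX, hXZ, hbX⟩ :=
    exists_closure hbas hfd
  have hXK' : ∀ j, (X j : K') = algebraMap K K' (affine x j) := by
    intro j
    rw [← hXZ, ← IsScalarTower.algebraMap_apply (fixedField G) K K']
    rfl
  have hXfun : (fun j => (X j : K')) = fun j => algebraMap K K' (affine x j) := funext hXK'
  -- the test places
  have hz : ∀ s, (fun l : Fin (d + 1) => ((T s l.succ : ℤ) - T s 0)) ≠ 0 := by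
    intro s h0
    obtain ⟨h1, k, hk⟩ := hT s
    have h2 : ∀ l : Fin (d + 1), (T s l.succ : ℤ) = T s 0 := fun l => by
      have := congrFun h0 l
      simp only [Pi.zero_apply] at this
      linarith
    have h3 : T s 0 = 0 := by
      refine Fin.cases (fun h => h) (fun l hl => ?_) k hk
      have := h2 l
      rw [hl] at this
      exact_mod_cast this.symm
    apply h1
    funext l
    refine Fin.cases h3 (fun l => ?_) l
    have := h2 l
    rw [h3] at this
    exact_mod_cast this
  choose gs lam hg1 hglam hprim using fun s => exists_prim _ (hz s)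
  have hpl : ∀ s : ι, ∃ v : Place ℂ (fixedField G), ∀ P : MvPolynomial (Fin (d + 1)) ℂ, P ≠ 0 →
      v.ord (aeval X P) = zord (lam s) P := fun s => exists_zmono hX _ (hprim s)
  choose vs hvs using hpl
  choose ws es Is hws hIsc hIs using fun s => exists_inertia G (vs s)
  obtain ⟨N0, b', Q, c1, hQ0, hC⟩ := one_str G hX hbX lam hvs hws
  -- the projection to `K`
  obtain ⟨π, hπ⟩ := (IsScalarTower.toAlgHom (fixedField G) K K').toLinearMap.exists_leftInverse_of_injective
    (LinearMap.ker_eq_bot.2 (algebraMap K K').injective)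
  have hπ' : ∀ z : K, π (algebraMap K K' z) = z := fun z => LinearMap.congr_fun hπ z
  have hae : ∀ P : MvPolynomial (Fin (d + 1)) ℂ, aeval (affine x) P =
      algebraMap (fixedField G) K (aeval X P) := by
    intro P
    have h3 : affine x = fun j => algebraMap (fixedField G) K (X j) := funext fun j => (hXZ j).symm
    rw [h3]
    exact MvPolynomial.aeval_algebraMap_apply K X P
  have hQK : aeval (affine x) Q ≠ 0 := by
    rw [hae]
    exact (map_ne_zero _).2 (hX.ne hQ0)
  have htne : ∀ l, affine x l ≠ 0 := fun l => hbas.1.ne_zero l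
  obtain ⟨gg, hgg⟩ : ∃ gg : ℕ, gg = ∑ s, gs s := ⟨_, rfl⟩
  refine ⟨N0, fun i => π (b' i), aeval (affine x) Q, gg * c1, hQK,
    fun h b M f hray hbd hf => ?_⟩
  obtain ⟨f', hf'⟩ : ∃ f' : K, f' = f * x 0 ^ (-b) * (∏ l, affine x l) ^ M := ⟨_, rfl⟩
  have hprod0 : (∏ l, affine x l) ≠ 0 := Finset.prod_ne_zero_iff.2 fun l _ => htne l
  -- the orders of `f'`
  have hord : ∀ P : Place ℂ K, Divisorial (d + 1) P → f' = 0 ∨
      h (multiplicities x P) - b * multiplicities x P 0 + M * ∑ l : Fin (d + 1), ((multiplicities x P l.succ : ℚ) - multiplicities x P 0) ≤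
        P.ord f' := by
    intro P hP
    by_cases hf0 : f = 0
    · left
      rw [hf', hf0, zero_mul, zero_mul]
    right
    have h1 := (hf P hP).resolve_left hf0
    rw [hf', P.ord_mul (mul_ne_zero hf0 (zpow_ne_zero _ hx0)) (pow_ne_zero _ hprod0),
      P.ord_mul hf0 (zpow_ne_zero _ hx0), P.ord_zpow, P.ord_pow, ord_prod' P Finset.univ _
      fun l _ => htne l, Finset.sum_congr rfl fun l _ => ord_aff hx0 hbas P l]
    have h2 := vec_eq x P 0
    have h3 : (multiplicities x P 0 : ℚ) = P.ord (x 0) - minimalOrder x P := by exact_mod_cast h2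
    have hb : (b : ℚ) * multiplicities x P 0 = b * ((P.ord (x 0) : ℚ) - minimalOrder x P) := by rw [h3]
    push_cast
    linarith
  have hfine : Fine G X {1} (algebraMap K K' f') := by
    intro p hp v hvp hv
    obtain ⟨w, e, I, hwv, hcard, hI⟩ := exists_inertia G v
    refine ⟨w, e, hwv, fun g hg => ?_⟩
    obtain ⟨P, e1, e2, h1, h2, he⟩ := exists_restr (K := K) (over_comp hwv hg)
    have hdiv : Divisorial (d + 1) P := div_adic hX hp hv h2
    rcases hord P hdiv with h3 | h3
    · left
      rw [h3, map_zero]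
    · right
      refine ⟨1, Finset.mem_singleton_self _, one_ne_zero, ?_⟩
      rw [map_one, w.ord_one, ← Place.comp_ord, h1.2]
      have hreg : ∀ l, 0 ≤ P.ord (affine x l) := by
        intro l
        have h4 : affine x l = algebraMap (fixedField G) K
            (aeval X (MvPolynomial.X l : MvPolynomial (Fin (d + 1)) ℂ)) := by
          rw [aeval_X, hXZ]
        rw [h4, h2.2]
        exact mul_nonneg (by positivity) (hv _ (X_ne_zero _)).1
      have h0 : multiplicities x P 0 = 0 := by
        obtain ⟨k, hk⟩ := vec_zero x P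
        revert hk
        refine Fin.cases (fun h => h) (fun l hl => ?_) k
        have h5 := hreg l
        rw [ord_aff hx0 hbas, hl] at h5
        omega
      rw [h0] at h3
      have h6 := hbd (multiplicities x P) (vec_zero x P)
      rw [Fin.sum_univ_succ, h0] at h6
      have h7 : (0 : ℚ) ≤ P.ord f' := by
        refine le_trans ?_ h3
        push_cast at h6 ⊢
        simp only [sub_zero, mul_zero]
        linarith
      have h8 : 0 ≤ P.ord f' := by exact_mod_cast h7
      positivity
  have htest : ∀ s, ∀ g ∈ G, Ge (ws s)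
      (⌈((es s : ℚ) / gs s) * (h (T s) - b * T s 0)⌉ + es s * (M * ∑ l, lam s l))
      (g (algebraMap K K' f')) := by
    intro s g hg
    obtain ⟨P, e1, e2, h1, h2, he⟩ := exists_restr (K := K) (over_comp (hws s) hg)
    have hl0 : ∃ l, lam s l ≠ 0 := by
      by_contra hcon
      push Not at hcon
      apply hz s
      funext l
      rw [hglam s l, hcon l]
      simp
    obtain ⟨l0, hl0⟩ := hl0
    have hdiv : Divisorial (d + 1) P := div_zmono hX (lam s) hl0 (hvs s) h2
    have hordt : ∀ l, P.ord (affine x l) = e2 * lam s l := by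
      intro l
      have h3 := hvs s (MvPolynomial.X l) (X_ne_zero _)
      rw [aeval_X, zord_X] at h3
      rw [← hXZ, h2.2, h3]
    -- the vector of `P`
    have hgq : (0 : ℚ) < gs s := by exact_mod_cast hg1 s
    have hvec0 : ∀ l : Fin (d + 1), (gs s : ℤ) * ((multiplicities x P l.succ : ℤ) - multiplicities x P 0) =
        e2 * ((T s l.succ : ℤ) - T s 0) := by
      intro l
      have h3 := hordt l
      rw [ord_aff hx0 hbas] at h3
      rw [h3, hglam s l]
      ring
    have hall : ∀ k, (gs s : ℤ) * multiplicities x P k - e2 * T s k = gs s * multiplicities x P 0 - e2 * T s 0 := by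
      intro k
      refine Fin.cases rfl (fun l => ?_) k
      have h4 := hvec0 l
      linarith
    have hc : (gs s : ℤ) * multiplicities x P 0 = e2 * T s 0 := by
      obtain ⟨k, hk⟩ := vec_zero x P
      obtain ⟨k', hk'⟩ := (hT s).2
      have h4 := hall k
      have h5 := hall k'
      rw [hk] at h4
      rw [hk'] at h5
      push_cast at h4 h5
      have h6 : (0 : ℤ) ≤ e2 * (T s k : ℤ) := by positivity
      have h7 : (0 : ℤ) ≤ gs s * (multiplicities x P k' : ℤ) := by positivity
      linarith
    have hvec : ∀ k, (multiplicities x P k : ℚ) = (e2 / gs s : ℚ) * T s k := by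
      have hc' : (gs s : ℚ) * multiplicities x P 0 = e2 * T s 0 := by exact_mod_cast hc
      intro k
      have h3 : (gs s : ℚ) * multiplicities x P k = e2 * T s k := by
        refine Fin.cases hc' (fun l => ?_) k
        have h4 : (gs s : ℚ) * ((multiplicities x P l.succ : ℚ) - multiplicities x P 0) =
          e2 * ((T s l.succ : ℚ) - T s 0) := by exact_mod_cast hvec0 l
        linarith
      field_simp
      linarith
    have he1 : (0 : ℚ) ≤ e1 := by positivity
    rcases hord P hdiv with h3 | h3
    · left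
      rw [h3, map_zero, map_zero]
    · right
      rw [← Place.comp_ord, h1.2]
      have h4 := hray s (e2 / gs s : ℚ) (multiplicities x P) (by positivity) hvec
      rw [h4, hvec 0] at h3
      have h5 : ∑ l : Fin (d + 1), ((multiplicities x P l.succ : ℚ) - multiplicities x P 0) = e2 * ∑ l, (lam s l : ℚ) := by
        rw [Finset.mul_sum]
        refine Finset.sum_congr rfl fun l _ => ?_
        have h6 := hordt l
        rw [ord_aff hx0 hbas] at h6
        exact_mod_cast h6
      have h5' : (M : ℚ) * ∑ l : Fin (d + 1), ((multiplicities x P l.succ : ℚ) - multiplicities x P 0) =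
        M * (e2 * ∑ l, (lam s l : ℚ)) := by rw [h5]
      have h6 : ((es s : ℚ) / gs s) * (h (T s) - b * T s 0) + es s * (M * ∑ l, (lam s l : ℚ)) ≤
          e1 * P.ord f' := by
        have h7 := mul_le_mul_of_nonneg_left h3 he1
        refine le_trans (le_of_eq ?_) h7
        rw [← hvec 0, h5', hvec 0, he]
        push_cast
        field_simp
      have h7 : (⌈((es s : ℚ) / gs s) * (h (T s) - b * T s 0)⌉ + es s * (M * ∑ l, lam s l) : ℤ) ≤
          ((e1 : ℤ) * P.ord f') := by
        have h8 : ⌈((es s : ℚ) / gs s) * (h (T s) - b * T s 0)⌉ ≤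
            (e1 : ℤ) * P.ord f' - es s * (M * ∑ l, lam s l) := by
          rw [Int.ceil_le]
          push_cast
          linarith
        linarith
      exact h7
  obtain ⟨R, hR, hRs⟩ := hC _ (algebraMap K K' f') hfine htest
  refine ⟨R, ?_, ?_⟩
  · rw [← hf']
    have h1 := congrArg π hR
    have h2 : algebraMap K K' f' * aeval (fun j => (X j : K')) Q =
        algebraMap K K' (f' * aeval (affine x) Q) := by
      rw [map_mul, hXfun]
      congr 1
      exact MvPolynomial.aeval_algebraMap_apply K' (affine x) Q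
    rw [h2, hπ'] at h1
    rw [h1, map_sum]
    refine Finset.sum_congr rfl fun i _ => ?_
    have h3 : ((aeval X (R i) : fixedField G) : K') * b' i =
        (aeval X (R i) : fixedField G) • b' i := by
      rw [Algebra.smul_def]
      rfl
    rw [h3, map_smul, Algebra.smul_def, hae]
  · intro i a ha s
    have h1 := hRs i a ha s
    have hgq : (1 : ℚ) ≤ gs s := by exact_mod_cast hg1 s
    have hes : (1 : ℚ) ≤ es s := by exact_mod_cast (hws s).1
    have h2 : ⌈((es s : ℚ) / gs s) * (h (T s) - b * T s 0)⌉ ≤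
        es s * zwt (lam s) a - es s * (M * ∑ l, lam s l) + c1 := by linarith
    rw [Int.ceil_le] at h2
    push_cast at h2
    obtain ⟨W, hW⟩ : ∃ W : ℚ, W = ∑ l, (lam s l : ℚ) * ((a l : ℚ) - M) := ⟨_, rfl⟩
    have h3 : (zwt (lam s) a : ℚ) - M * ∑ l, (lam s l : ℚ) = W := by
      rw [hW]
      unfold zwt
      push_cast
      rw [Finset.mul_sum, ← Finset.sum_sub_distrib]
      exact Finset.sum_congr rfl fun l _ => by ring
    have h4 : ((∑ l : Fin (d + 1), ((T s l.succ : ℤ) - T s 0) * ((a l : ℤ) - M) : ℤ) : ℚ) =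
        gs s * W := by
      rw [hW, Finset.mul_sum]
      push_cast
      refine Finset.sum_congr rfl fun l _ => ?_
      have h5 : ((T s l.succ : ℚ) - T s 0) = gs s * lam s l := by exact_mod_cast hglam s l
      rw [h5]
      ring
    rw [h4]
    have h5 : ((es s : ℚ) / gs s) * (h (T s) - b * T s 0) ≤ es s * W + c1 := by
      rw [← h3]
      linarith
    have h6 : (es s : ℚ) * ((h (T s) - b * T s 0) - gs s * W) ≤ gs s * c1 := by
      have h7 := mul_le_mul_of_nonneg_left h5 (by linarith : (0 : ℚ) ≤ gs s)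
      have h8 : (gs s : ℚ) * ((es s : ℚ) / gs s * (h (T s) - b * T s 0)) =
        es s * (h (T s) - b * T s 0) := by
        field_simp
      rw [h8] at h7
      linarith
    have h7 : (h (T s) - b * T s 0) - gs s * W ≤ gs s * c1 := by
      by_cases h8 : (h (T s) - b * T s 0) - gs s * W ≤ 0
      · exact h8.trans (by positivity)
      · push Not at h8
        nlinarith
    have h8 : (gs s : ℚ) * c1 ≤ ((gg * c1 : ℕ) : ℚ) := by
      have h9 : gs s ≤ gg := by
        rw [hgg]
        exact Finset.single_le_sum (f := gs) (fun _ _ => Nat.zero_le _) (Finset.mem_univ s)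
      have h10 : gs s * c1 ≤ gg * c1 := Nat.mul_le_mul_right _ h9
      exact_mod_cast h10
    linarith

end Pool.Agent.U189.FV
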