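import Pool.Agent.Q57.GM.Str
import Pool.Agent.TH756.PN.Cl

/-!
The structure of the functions with bounded poles over a rational function field
(following `Pool.Agent.Q57.GM.Str`), for one group and without conditions at infinity.
-/

set_option autoImplicit false
set_option linter.overlappingInstances false
set_option linter.unusedSectionVars false
set_option maxHeartbeats 1000000

open FF MvPolynomial IntermediateField Pool.Agent.W603.LV Pool.Agent.W619.PQ
open Pool.Agent.TH122.AB Pool.Agent.TH756.PN Pool.Agent.Y169.CH Pool.Agent.Y169.TH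
open Pool.Agent.Q57.GM

namespace Pool.Agent.U189.FV

section

variable {k K : Type} [Field k] [CharZero k] [Field K] [Algebra k K] {n : ℕ}

/-- **The structure.** -/
theorem one_str (G : Subgroup (K ≃ₐ[k] K)) [Finite G]
    {X : Fin n → fixedField G} (hX : Gens (k := k) X)
    (hZ : IsTranscendenceBasis k fun j => (X j : K))
    {ι : Type} [Fintype ι] (lam : ι → Fin n → ℤ) {vs : ι → Place k (fixedField G)}
    (hvs : ∀ s, ∀ P : MvPolynomial (Fin n) k, P ≠ 0 →
      (vs s).ord (aeval X P) = zord (lam s) P)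
    {ws : ι → Place k K} {es : ι → ℕ} (hs : ∀ s, Over (ws s) (vs s) (es s)) :
    ∃ (δ : ℕ) (b' : Fin δ → K) (Q : MvPolynomial (Fin n) k) (c : ℕ), Q ≠ 0 ∧
      ∀ (M : ι → ℤ) (f : K), Fine G X {1} f →
      (∀ s, ∀ g ∈ G, Ge (ws s) (M s) (g f)) →
      ∃ R : Fin δ → MvPolynomial (Fin n) k,
        f * aeval (fun j => (X j : K)) Q =
          ∑ i, ((aeval X (R i) : fixedField G) : K) * b' i ∧
        ∀ i, ∀ a ∈ (R i).support, ∀ s, M s - c ≤ es s * zwt (lam s) a := by
  classical
  have hGal : IsGaloisGroup G (fixedField G) K := isGaloisGroup_fixed G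
  have hfd : FiniteDimensional (fixedField G) K := IsGaloisGroup.finiteDimensional G _ K
  have hfix : ∀ g ∈ G, ∀ z : fixedField G, g (z : K) = z := fun g hg z => z.2 ⟨g, hg⟩
  have hcK : CharZero K := charZero_of_injective_algebraMap (algebraMap k K).injective
  let Z : Fin n → K := fun j => (X j : K)
  have hXZ : ∀ P : MvPolynomial (Fin n) k, ((aeval X P : fixedField G) : K) = aeval Z P :=
    fun P => (aeval_fix X P).symm
  let b := Module.finBasis (fixedField G) K
  let δ := Module.finrank (fixedField G) K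
  obtain ⟨b', hb'⟩ := exists_dual_tr G b
  -- a common denominator
  obtain ⟨Q, hQ0, hQb⟩ : ∃ Q : MvPolynomial (Fin n) k, Q ≠ 0 ∧
      (∀ i, ∀ g ∈ G, ∀ w : Place k K, (∀ P : MvPolynomial (Fin n) k, w.Reg (aeval Z P)) →
        w.Reg (aeval Z Q * g (b i))) := by
    have hGfin : (G : Set (K ≃ₐ[k] K)).Finite := Set.toFinite _
    let T : Finset K := hGfin.toFinset.biUnion fun g => Finset.univ.image fun i => g (b i)
    choose q hq0 hq using fun z : K => exists_mult hZ z
    have hmain : ∀ z ∈ T, ∀ w : Place k K, (∀ P : MvPolynomial (Fin n) k, w.Reg (aeval Z P)) →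
        w.Reg (aeval Z (∏ t ∈ T, q t) * z) := by
      intro z hz w hw
      rw [← Finset.mul_prod_erase T q hz, map_mul, mul_comm (aeval Z (q z)), mul_assoc]
      exact w.reg_mul (hw _) (reg_of_int hw (hq z))
    refine ⟨∏ t ∈ T, q t, Finset.prod_ne_zero_iff.2 fun t _ => hq0 t, ?_⟩
    intro i g hg w hw
    refine hmain _ ?_ w hw
    refine Finset.mem_biUnion.2 ⟨g, by simpa using hg, ?_⟩
    exact Finset.mem_image_of_mem _ (Finset.mem_univ i)
  have hQK : aeval Z Q ≠ 0 := by
    rw [← hXZ]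
    have := hX.ne hQ0
    simpa using this
  have hgQ : ∀ g ∈ G, g (aeval Z Q) = aeval Z Q := by
    intro g hg
    rw [← hXZ]
    exact hfix g hg _
  -- the constants at the places
  obtain ⟨c0, hc0'⟩ : ∃ c0 : ℕ,
      ∀ s, ∀ g ∈ G, Ge (ws s) (- (c0 : ℤ)) (g (aeval Z Q)) ∧
      ∀ i, Ge (ws s) (- (c0 : ℤ)) (g (b i)) := by
    have hG0fin : (G : Set (K ≃ₐ[k] K)).Finite := Set.toFinite _
    let T : Finset K := hG0fin.toFinset.biUnion fun g =>
      insert (g (aeval Z Q)) (Finset.univ.image fun i => g (b i))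
    let W : Finset (Place k K) := Finset.univ.image ws
    obtain ⟨c0, hc0⟩ : ∃ c0 : ℕ, c0 = (∑ w ∈ W, ∑ z ∈ T, |w.ord z|).toNat := ⟨_, rfl⟩
    have hmain : ∀ w ∈ W, ∀ z ∈ T, Ge w (- (c0 : ℤ)) z := by
      intro w hw z hz
      right
      have h1 : |w.ord z| ≤ ∑ z ∈ T, |w.ord z| :=
        Finset.single_le_sum (f := fun z => |w.ord z|) (fun _ _ => abs_nonneg _) hz
      have h2 : ∑ z ∈ T, |w.ord z| ≤ ∑ w ∈ W, ∑ z ∈ T, |w.ord z| :=
        Finset.single_le_sum (f := fun w => ∑ z ∈ T, |w.ord z|)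
          (fun _ _ => Finset.sum_nonneg fun _ _ => abs_nonneg _) hw
      have h3 := neg_abs_le (w.ord z)
      have h4 := Int.self_le_toNat (∑ w ∈ W, ∑ z ∈ T, |w.ord z|)
      rw [hc0]
      linarith
    have hT1 : ∀ g ∈ G, g (aeval Z Q) ∈ T := fun g hg =>
      Finset.mem_biUnion.2 ⟨g, by simpa using hg, Finset.mem_insert_self _ _⟩
    have hT2 : ∀ g ∈ G, ∀ i, g (b i) ∈ T := fun g hg i =>
      Finset.mem_biUnion.2 ⟨g, by simpa using hg, Finset.mem_insert_of_mem
        (Finset.mem_image_of_mem _ (Finset.mem_univ i))⟩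
    have hW2 : ∀ s, ws s ∈ W := fun s => Finset.mem_image_of_mem _ (Finset.mem_univ s)
    exact ⟨c0, fun s g hg => ⟨hmain _ (hW2 s) _ (hT1 g hg), fun i => hmain _ (hW2 s) _ (hT2 g hg i)⟩⟩
  refine ⟨δ, b', Q, 2 * c0, hQ0, fun M f hfine htest => ?_⟩
  have hmem : ∀ i, ∃ R : MvPolynomial (Fin n) k,
      tr G (f * aeval Z Q * b i) = ((aeval X R : fixedField G) : K) ∧
      ∀ a ∈ R.support, ∀ s, M s - (2 * c0 : ℕ) ≤ es s * zwt (lam s) a := by
    intro i
    obtain ⟨z, hz⟩ : ∃ z, z = f * aeval Z Q * b i := ⟨_, rfl⟩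
    rw [← hz]
    have hgz : ∀ g ∈ G, g z = g f * (aeval Z Q * g (b i)) := by
      intro g hg
      rw [hz, map_mul, map_mul, hgQ g hg]
      ring
    obtain ⟨t, ht⟩ : ∃ t : fixedField G, (t : K) = tr G z := ⟨⟨_, tr_fix G z⟩, rfl⟩
    have hreg : ∃ P : MvPolynomial (Fin n) k, t = aeval X P := by
      refine poly_of_reg hX fun p hp v hv1 hv2 => ?_
      obtain ⟨w, e, hwv, hdom⟩ := hfine p hp v hv1 hv2
      have hwZ : ∀ P : MvPolynomial (Fin n) k, w.Reg (aeval Z P) := by
        intro P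
        rw [← hXZ]
        refine hwv.reg.2 ?_
        by_cases hP : P = 0
        · rw [hP, map_zero]
          exact v.reg_zero
        · exact Or.inr (hv2 P hP).1
      have h1 : w.Reg (t : K) := by
        rw [ht]
        refine tr_ge G (N := 0) fun g hg => ?_
        rw [hgz g hg]
        refine w.reg_mul ?_ (hQb i g hg w hwZ)
        rcases hdom g hg with h3 | ⟨s', hs', hs0, hle⟩
        · rw [h3, map_zero]
          exact w.reg_zero
        · rw [Finset.mem_singleton] at hs'
          subst hs'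
          rw [map_one, w.ord_one] at hle
          exact Or.inr hle
      exact hwv.reg.1 h1
    obtain ⟨P, hP⟩ := hreg
    refine ⟨P, by rw [← hP, ht], fun a ha s => ?_⟩
    have hPne : P ≠ 0 := by
      intro h
      rw [h] at ha
      simp at ha
    have h1 : Ge (ws s) (M s - 2 * c0) (tr G z) := by
      refine tr_ge G fun g hg => ?_
      rw [hgz g hg]
      have h2 := (hc0' s g hg).1
      rw [hgQ g hg] at h2
      refine ((htest s g hg).mul (h2.mul ((hc0' s g hg).2 i))).mono (le_of_eq ?_)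
      ring
    have h2 : tr G z ≠ 0 := by
      rw [← ht, hP]
      have := hX.ne hPne
      simpa using this
    have h3 := h1.resolve_left h2
    rw [← ht] at h3
    have h4 : (ws s).ord (t : K) = es s * (vs s).ord t := (hs s).2 _
    rw [h4, hP, hvs s _ hPne] at h3
    have h6 : (es s : ℤ) * zord (lam s) P ≤ es s * zwt (lam s) a :=
      mul_le_mul_of_nonneg_left (zord_le (lam s) ha) (by positivity)
    push_cast
    linarith
  choose R hR hRs using hmem
  refine ⟨R, ?_, hRs⟩
  rw [hb' (f * aeval (fun j => (X j : K)) Q)]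
  refine Finset.sum_congr rfl fun i _ => ?_
  rw [← hR]

end

/-- integral vectors are multiples of primitive vectors -/
theorem exists_prim {n : ℕ} (z : Fin n → ℤ) (hz : z ≠ 0) :
    ∃ (g : ℕ) (lam : Fin n → ℤ), 1 ≤ g ∧ (∀ b, z b = g * lam b) ∧
      ∃ a b : Fin n →₀ ℕ, zwt lam a = zwt lam b + 1 := by
  classical
  let φ : (Fin n → ℤ) →+ ℤ := AddMonoidHom.mk' (fun x => ∑ b, z b * x b) (by
    intro x y
    simp only [Pi.add_apply, mul_add, Finset.sum_add_distrib])
  have hφ : ∀ x, φ x = ∑ b, z b * x b := fun x => rfl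
  obtain ⟨a, ha⟩ := Int.subgroup_cyclic φ.range
  have hzb : ∀ b, ∃ c : ℤ, z b = a.natAbs * c := by
    intro b
    have h1 : z b ∈ φ.range := ⟨Pi.single b 1, by
      rw [hφ, Finset.sum_eq_single b]
      · simp
      · intro c _ hc
        rw [Pi.single_eq_of_ne hc, mul_zero]
      · intro h
        exact absurd (Finset.mem_univ b) h⟩
    rw [ha, AddSubgroup.mem_closure_singleton] at h1
    obtain ⟨c, hc⟩ := h1
    rcases Int.natAbs_eq a with h | h
    · exact ⟨c, by rw [← hc, ← h, smul_eq_mul, mul_comm]⟩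
    · refine ⟨-c, ?_⟩
      have : (a.natAbs : ℤ) = - a := by omega
      rw [this, ← hc, smul_eq_mul]
      ring
  choose lam hlam using hzb
  have ha0 : a.natAbs ≠ 0 := by
    intro h0
    apply hz
    funext b
    rw [hlam b, h0]
    simp
  refine ⟨a.natAbs, lam, Nat.one_le_iff_ne_zero.2 ha0, hlam, ?_⟩
  have h1 : (a.natAbs : ℤ) ∈ φ.range := by
    rw [ha, AddSubgroup.mem_closure_singleton]
    rcases Int.natAbs_eq a with h | h
    · exact ⟨1, by rw [one_smul]; exact h⟩
    · exact ⟨-1, by rw [neg_smul, one_smul]; omega⟩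
  obtain ⟨x, hx⟩ := h1
  rw [hφ] at hx
  have h2 : ∑ b, lam b * x b = 1 := by
    have h3 : (a.natAbs : ℤ) * ∑ b, lam b * x b = a.natAbs * 1 := by
      rw [mul_one, Finset.mul_sum]
      conv_rhs => rw [← hx]
      exact Finset.sum_congr rfl fun b _ => by rw [hlam b]; ring
    exact mul_left_cancel₀ (by exact_mod_cast ha0) h3
  refine ⟨Finsupp.equivFunOnFinite.symm fun b => (x b).toNat,
    Finsupp.equivFunOnFinite.symm fun b => (- x b).toNat, ?_⟩
  unfold zwt
  rw [← h2, ← Finset.sum_add_distrib]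
  refine Finset.sum_congr rfl fun b _ => ?_
  have h4 : ((x b).toNat : ℤ) = (-x b).toNat + x b := by omega
  simp only [Finsupp.equivFunOnFinite_symm_apply_apply]
  rw [h4]
  ring

end Pool.Agent.U189.FV
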